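import Pool.Agent.P.MP_3827cc_co.Part

namespace Pool.Agent.P.MP_3827cc_co

open Finset MvPolynomial

/-- The alternant of an exponent vector. -/
noncomputable def alt {k : ℕ} (a : Fin k → ℕ) : MvPolynomial (Fin k) ℤ :=
  (Matrix.of fun i j => (X i : MvPolynomial (Fin k) ℤ) ^ a j).det

/-- The sign of the permutation that sorts an injective exponent vector. -/
def sg {k : ℕ} (a : Fin k → ℕ) : ℤ := ∏ i, ∏ j ∈ Ioi i, Int.sign ((a i : ℤ) - a j)

theorem alt_eq {k : ℕ} (a : Fin k → ℕ) : alt a =
    ∑ σ : Equiv.Perm (Fin k), ((Equiv.Perm.sign σ : ℤ) : MvPolynomial (Fin k) ℤ) *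
      ∏ i, X (σ i) ^ a i := by
  unfold alt
  rw [Matrix.det_apply']
  rfl

theorem alt_comp {k : ℕ} (a : Fin k → ℕ) (τ : Equiv.Perm (Fin k)) :
    alt (a ∘ τ) = ((Equiv.Perm.sign τ : ℤ) : MvPolynomial (Fin k) ℤ) * alt a := by
  unfold alt
  rw [← Matrix.det_permute']
  rfl

theorem alt_eq_zero {k : ℕ} {a : Fin k → ℕ} (h : ¬ Function.Injective a) : alt a = 0 := by
  unfold Function.Injective at h
  push Not at h
  obtain ⟨i, j, h1, h2⟩ := h
  exact Matrix.det_zero_of_column_eq h2 (fun r => by simp [h1])

theorem sg_comp {k : ℕ} (a : Fin k → ℕ) (τ : Equiv.Perm (Fin k)) :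
    sg (a ∘ τ) = (Equiv.Perm.sign τ : ℤ) * sg a := by
  unfold sg
  have := τ.prod_Ioi_comp_eq_sign_mul_prod (R := ℤ)
    (f := fun i j => Int.sign ((a i : ℤ) - a j)) (fun i j => by
      rw [← Int.sign_neg]; congr 1; ring)
  simpa using this

theorem sg_strictAnti {k : ℕ} {a : Fin k → ℕ} (ha : StrictAnti a) : sg a = 1 := by
  unfold sg
  refine Finset.prod_eq_one fun i _ => Finset.prod_eq_one fun j hj => ?_
  have : a j < a i := ha (Finset.mem_Ioi.1 hj)
  exact Int.sign_eq_one_of_pos (by omega)

theorem exists_sort {k : ℕ} {a : Fin k → ℕ} (ha : Function.Injective a) :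
    ∃ τ : Equiv.Perm (Fin k), StrictAnti (a ∘ τ) := by
  have h1 : StrictMono (a ∘ Tuple.sort a) :=
    (Tuple.monotone_sort a).strictMono_of_injective (ha.comp (Tuple.sort a).injective)
  refine ⟨Tuple.sort a * Fin.revPerm, fun i j hij => ?_⟩
  exact h1 (Fin.rev_lt_rev.2 hij)

theorem vand_eq (k : ℕ) : vand k = alt (fun j : Fin k => k - 1 - j) := by
  have h := Matrix.det_vandermonde (fun i : Fin k => (X (Fin.rev i) : MvPolynomial (Fin k) ℤ))
  have h2 : alt (fun j : Fin k => k - 1 - j) =
      (Matrix.vandermonde (fun i : Fin k => (X (Fin.rev i) : MvPolynomial (Fin k) ℤ))).det := by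
    unfold alt
    rw [← Matrix.det_submatrix_equiv_self Fin.revPerm]
    congr 1
    ext i j
    simp only [Matrix.submatrix_apply, Matrix.of_apply, Matrix.vandermonde_apply, Fin.revPerm_apply,
      Fin.val_rev]
    have := j.2
    rw [show k - 1 - (k - (j + 1)) = j by omega]
  rw [h2, h]
  unfold vand
  rw [Finset.prod_sigma', Finset.prod_sigma']
  refine Finset.prod_bij' (fun x _ => ⟨Fin.rev x.2, Fin.rev x.1⟩) (fun x _ => ⟨Fin.rev x.2, Fin.rev x.1⟩)
    ?_ ?_ ?_ ?_ ?_
  · intro x hx; simpa using hx
  · intro x hx; simpa using hx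
  · intro x hx; simp
  · intro x hx; simp
  · intro x hx; simp

theorem alt_mul_psum {k : ℕ} (a : Fin k → ℕ) (c : ℕ) :
    alt a * psum (Fin k) ℤ c = ∑ j, alt (Function.update a j (a j + c)) := by
  simp only [alt_eq]
  rw [Finset.sum_comm, Finset.sum_mul]
  refine Finset.sum_congr rfl fun σ _ => ?_
  rw [← Finset.mul_sum, mul_assoc]
  congr 1
  unfold psum
  rw [← Equiv.sum_comp σ, Finset.mul_sum]
  refine Finset.sum_congr rfl fun j _ => ?_
  rw [← Finset.mul_prod_erase _ _ (Finset.mem_univ j),
    ← Finset.mul_prod_erase _ _ (Finset.mem_univ j), Function.update_self, pow_add]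
  rw [Finset.prod_congr rfl (s₁ := univ.erase j)
    (f := fun i => (X (σ i) : MvPolynomial (Fin k) ℤ) ^ Function.update a j (a j + c) i)
    (g := fun i => (X (σ i) : MvPolynomial (Fin k) ℤ) ^ a i)
    (fun i hi => by rw [Function.update_of_ne (Finset.ne_of_mem_erase hi)])]
  ring

theorem prod_X_pow_univ {k : ℕ} (a : Fin k → ℕ) :
    ∏ i, (X i : MvPolynomial (Fin k) ℤ) ^ a i = monomial (Finsupp.equivFunOnFinite.symm a) 1 := by
  rw [monomial_eq, Finsupp.prod_fintype _ _ (by simp)]
  simp

theorem coeff_alt {k : ℕ} {a : Fin k → ℕ} {b : Fin k →₀ ℕ} (ha : StrictAnti a)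
    (hb : StrictAnti b) : coeff b (alt a) = if a = b then 1 else 0 := by
  rw [alt_eq, coeff_sum]
  have key : ∀ σ : Equiv.Perm (Fin k), coeff b (((Equiv.Perm.sign σ : ℤ) : MvPolynomial (Fin k) ℤ) *
      ∏ i, X (σ i) ^ a i) = if a = b ∘ σ then (Equiv.Perm.sign σ : ℤ) else 0 := by
    intro σ
    have h1 : ∏ i, (X (σ i) : MvPolynomial (Fin k) ℤ) ^ a i = ∏ i, X i ^ a (σ.symm i) := by
      rw [← Equiv.prod_comp σ (fun i => (X i : MvPolynomial (Fin k) ℤ) ^ a (σ.symm i))]
      simp
    rw [h1, prod_X_pow_univ, ← eq_intCast (C : ℤ →+* MvPolynomial (Fin k) ℤ), coeff_C_mul,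
      coeff_monomial]
    have h2 : (Finsupp.equivFunOnFinite.symm (fun i => a (σ.symm i)) = b) ↔ a = b ∘ σ := by
      constructor
      · intro h; funext i; rw [← h]; simp
      · intro h; ext i; rw [h]; simp
    simp only [h2]
    split_ifs <;> simp
  simp only [key]
  have one : ∀ σ : Equiv.Perm (Fin k), a = b ∘ σ → σ = 1 := by
    intro σ h
    have hr : Set.range a = Set.range b := by
      rw [h]; exact σ.surjective.range_comp b
    have hab : a = b := (ha.range_inj hb).1 hr
    ext i
    have := congrFun h i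
    rw [hab] at this
    exact congrArg Fin.val (hb.injective this).symm
  rw [Finset.sum_eq_single 1]
  · simp
  · intro σ _ hσ
    rw [if_neg (fun h => hσ (one σ h))]
  · simp

/-- The Murnaghan-Nakayama recursion on bead configurations. -/
def mn : List ℕ → Finset ℕ → Finset ℕ → ℤ
  | [], S, T => if S = T then 1 else 0
  | c :: l, S, T => ∑ p ∈ S with p + c ∉ S,
      (-1) ^ #{q ∈ S | p < q ∧ q < p + c} * mn l (insert (p + c) (S.erase p)) T

theorem sg_update {k : ℕ} {a : Fin k → ℕ} (ha : StrictAnti a) (j : Fin k) (c : ℕ)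
    (hc : a j + c ∉ image a univ) :
    sg (Function.update a j (a j + c)) =
      (-1) ^ #{q ∈ image a univ | a j < q ∧ q < a j + c} := by
  have hne : ∀ i, a i ≠ a j + c := fun i h => hc (Finset.mem_image.2 ⟨i, Finset.mem_univ _, h⟩)
  unfold sg
  have h1 : ∀ i, ∏ i' ∈ Ioi i, Int.sign (((Function.update a j (a j + c) i : ℕ) : ℤ) -
      (Function.update a j (a j + c) i' : ℕ)) =
      if a j < a i ∧ a i < a j + c then -1 else 1 := by
    intro i
    by_cases hij : i < j
    · rw [Finset.prod_eq_single j]
      · rw [Function.update_self, Function.update_of_ne hij.ne]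
        have := ha hij
        have := hne i
        split_ifs with h
        · exact Int.sign_eq_neg_one_of_neg (by push_cast; omega)
        · exact Int.sign_eq_one_of_pos (by push_cast; omega)
      · intro i' hi' hj
        rw [Function.update_of_ne hij.ne, Function.update_of_ne hj]
        have := ha (Finset.mem_Ioi.1 hi')
        exact Int.sign_eq_one_of_pos (by omega)
      · intro h; exact absurd (Finset.mem_Ioi.2 hij) h
    · have hji : j ≤ i := not_lt.1 hij
      have := ha.antitone hji
      rw [if_neg (by omega)]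
      refine Finset.prod_eq_one fun i' hi' => ?_
      have h3 := Finset.mem_Ioi.1 hi'
      rw [Function.update_of_ne (lt_of_le_of_lt hji h3).ne']
      have h4 := ha h3
      apply Int.sign_eq_one_of_pos
      by_cases h5 : i = j
      · subst h5; rw [Function.update_self]; push_cast; omega
      · rw [Function.update_of_ne h5]; omega
  simp only [h1]
  rw [Finset.prod_ite, Finset.prod_const, Finset.prod_const_one, mul_one, Finset.filter_image,
    Finset.card_image_of_injective _ ha.injective]

theorem image_update {k : ℕ} {a : Fin k → ℕ} (ha : Function.Injective a) (j : Fin k) (x : ℕ) :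
    image (Function.update a j x) univ = insert x ((image a univ).erase (a j)) := by
  ext y
  simp only [Finset.mem_image, Finset.mem_univ, true_and, Finset.mem_insert, Finset.mem_erase]
  constructor
  · rintro ⟨i, rfl⟩
    by_cases h : i = j
    · subst h; simp
    · rw [Function.update_of_ne h]; exact Or.inr ⟨fun h' => h (ha h'), i, rfl⟩
  · rintro (rfl | ⟨h, i, rfl⟩)
    · exact ⟨j, by simp⟩
    · exact ⟨i, by rw [Function.update_of_ne (fun h' => h (by rw [h']))]⟩

theorem coeff_alt_mul {k : ℕ} (l : List ℕ) (hl : ∀ c ∈ l, 0 < c) {b : Fin k →₀ ℕ}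
    (hb : StrictAnti b) : ∀ a : Fin k → ℕ, Function.Injective a →
      coeff b (alt a * (l.map (psum (Fin k) ℤ)).prod) =
        sg a * mn l (image a univ) (image b univ) := by
  have red : ∀ (F : MvPolynomial (Fin k) ℤ) (g : Finset ℕ → ℤ),
      (∀ a : Fin k → ℕ, StrictAnti a → coeff b (alt a * F) = g (image a univ)) →
      ∀ a : Fin k → ℕ, Function.Injective a → coeff b (alt a * F) = sg a * g (image a univ) := by
    intro F g H a ha
    obtain ⟨τ, hτ⟩ := exists_sort ha
    have h1 := H _ hτ
    have h2 := sg_comp a τ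
    rw [sg_strictAnti hτ] at h2
    have h3 : image (a ∘ τ) univ = image a univ := by
      rw [← Finset.image_image, Finset.image_univ_equiv]
    rw [alt_comp, mul_assoc, ← eq_intCast (C : ℤ →+* MvPolynomial (Fin k) ℤ), coeff_C_mul,
      h3] at h1
    rw [← h1, ← mul_assoc, mul_comm (sg a), ← h2, one_mul]
  induction l with
  | nil =>
    refine red _ (fun S => mn [] S (image b univ)) fun a ha => ?_
    simp only [List.map_nil, List.prod_nil, mul_one, mn]
    rw [coeff_alt ha hb]
    congr 1
    rw [← ha.range_inj hb, ← Finset.coe_inj]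
    simp
  | cons c l ih =>
    have ih' := ih (fun x hx => hl x (List.mem_cons_of_mem _ hx))
    have hc : 0 < c := hl c (List.mem_cons_self)
    refine red _ (fun S => mn (c :: l) S (image b univ)) fun a ha => ?_
    simp only [List.map_cons, List.prod_cons, mn]
    rw [← mul_assoc, alt_mul_psum, Finset.sum_mul, coeff_sum, Finset.sum_filter,
      Finset.sum_image (fun x _ y _ h => ha.injective h)]
    refine Finset.sum_congr rfl fun j _ => ?_
    split_ifs with h
    · rw [alt_eq_zero, zero_mul, coeff_zero]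
      intro hinj
      obtain ⟨i, -, hi⟩ := Finset.mem_image.1 h
      have hij : i ≠ j := by rintro rfl; omega
      exact hij (hinj (by rw [Function.update_of_ne hij, Function.update_self, hi]))
    · rw [ih', sg_update ha j c h, image_update ha.injective]
      have hne : ∀ i, a i ≠ a j + c :=
        fun i hi => h (Finset.mem_image.2 ⟨i, Finset.mem_univ _, hi⟩)
      intro x y hxy
      by_cases hx : x = j <;> by_cases hy : y = j
      · rw [hx, hy]
      · subst hx; rw [Function.update_self, Function.update_of_ne hy] at hxy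
        exact absurd hxy.symm (hne y)
      · subst hy; rw [Function.update_self, Function.update_of_ne hx] at hxy
        exact absurd hxy (hne x)
      · rw [Function.update_of_ne hx, Function.update_of_ne hy] at hxy
        exact ha.injective hxy

end Pool.Agent.P.MP_3827cc_co
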