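import Pool.Agent.P.MP_3827cc_co.Laurent

namespace Pool.Agent.P.MP_3827cc_co

open Finset MvPolynomial

/-- Below every bead there is an even number of holes. -/
def rowEven (T : Finset ℕ) : Prop := ∀ s ∈ T, Even #(range s \ T)

/-- Above every hole there is an even number of beads. -/
def colEven (T : Finset ℕ) : Prop := ∀ h ∉ T, Even #{x ∈ T | h < x}

theorem card_beads (k : ℕ) {m : ℕ} (μ : m.Partition) : #(beads k μ) = k := by
  unfold beads
  rw [Finset.card_image_of_injective _ (beta_strictAnti k μ).injective]; simp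

theorem card_holes (k : ℕ) {m : ℕ} (μ : m.Partition) (j : Fin k) :
    #(range (beta k μ j) \ beads k μ) = row μ j := by
  have h1 := Finset.card_sdiff_add_card_inter (range (beta k μ j)) (beads k μ)
  have h2 : range (beta k μ j) ∩ beads k μ = image (beta k μ) (Ioi j) := by
    ext x
    simp only [beads, Finset.mem_inter, Finset.mem_range, Finset.mem_image, Finset.mem_univ,
      true_and, Finset.mem_Ioi]
    constructor
    · rintro ⟨h, i, rfl⟩
      exact ⟨i, (beta_strictAnti k μ).lt_iff_gt.1 h, rfl⟩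
    · rintro ⟨i, h, rfl⟩
      exact ⟨beta_strictAnti k μ h, i, rfl⟩
  rw [h2, Finset.card_image_of_injective _ (beta_strictAnti k μ).injective, Fin.card_Ioi,
    Finset.card_range, beta_apply] at h1
  rw [beta_apply]
  omega

theorem rowEven_beads (k : ℕ) {m : ℕ} (μ : m.Partition) :
    rowEven (beads k μ) ↔ ∀ j : Fin k, Even (row μ j) := by
  unfold rowEven
  constructor
  · intro H j
    rw [← card_holes k μ j]
    exact H _ (Finset.mem_image_of_mem _ (Finset.mem_univ j))
  · intro H s hs
    obtain ⟨j, -, rfl⟩ := Finset.mem_image.1 hs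
    rw [card_holes]; exact H j

theorem above_hole (k : ℕ) {m : ℕ} (μ : m.Partition) {h : ℕ} (hh : h ∉ beads k μ) :
    #{x ∈ beads k μ | h < x} = #{j : Fin k | #(range h \ beads k μ) < row μ j} := by
  unfold beads
  rw [Finset.filter_image, Finset.card_image_of_injective _ (beta_strictAnti k μ).injective]
  congr 1
  refine Finset.filter_congr fun j _ => ?_
  rw [← card_holes k μ j]
  constructor
  · intro hj
    apply Finset.card_lt_card
    refine ⟨Finset.sdiff_subset_sdiff (Finset.range_subset_range.2 hj.le) le_rfl, fun hs => ?_⟩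
    have := hs (Finset.mem_sdiff.2 ⟨Finset.mem_range.2 hj, hh⟩)
    simp at this
  · intro hj
    by_contra hle
    have := Finset.card_le_card (Finset.sdiff_subset_sdiff
      (Finset.range_subset_range.2 (not_lt.1 hle)) (le_refl (beads k μ)))
    exact absurd hj (not_lt.2 this)

theorem exists_hole (T : Finset ℕ) (i : ℕ) : ∃ h ∉ T, #(range h \ T) = i := by
  have hinf : (Set.ofPred fun x => x ∉ T).Infinite := by
    have := (Finset.finite_toSet T).infinite_compl
    exact this
  refine ⟨Nat.nth (fun x => x ∉ T) i, Nat.nth_mem_of_infinite hinf i, ?_⟩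
  conv_rhs => rw [← Nat.count_nth_of_infinite hinf i, Nat.count_eq_card_filter_range]
  congr 1
  ext x; simp

theorem colEven_beads (k : ℕ) {m : ℕ} (μ : m.Partition) :
    colEven (beads k μ) ↔ ∀ i, Even #{j : Fin k | i < row μ j} := by
  unfold colEven
  constructor
  · intro H i
    obtain ⟨h, hh, rfl⟩ := exists_hole (beads k μ) i
    rw [← above_hole k μ hh]; exact H h hh
  · intro H h hh
    rw [above_hole k μ hh]; exact H _

theorem card_dual {M : ℕ} {T : Finset ℕ} (hT : T ⊆ range M) : #(dual M T) + #T = M := by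
  have h1 : #(dual M T) = #(range M \ T) := by
    refine Finset.card_bij' (fun q _ => M - 1 - q) (fun q _ => M - 1 - q) ?_ ?_ ?_ ?_
    · intro q hq
      simp only [mem_dual, Finset.mem_sdiff, Finset.mem_range] at hq ⊢
      exact ⟨by omega, hq.2⟩
    · intro q hq
      simp only [mem_dual, Finset.mem_sdiff, Finset.mem_range] at hq ⊢
      refine ⟨by omega, ?_⟩
      rw [show M - 1 - (M - 1 - q) = q by omega]; exact hq.2
    · intro q hq
      simp only [mem_dual] at hq
      omega
    · intro q hq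
      simp only [Finset.mem_sdiff, Finset.mem_range] at hq
      omega
  rw [h1, Finset.card_sdiff_add_card_eq_card hT, Finset.card_range]

theorem rowEven_dual {M : ℕ} {T : Finset ℕ} (hT : T ⊆ range M) :
    rowEven (dual M T) ↔ colEven T := by
  have key : ∀ h, h < M → #(range (M - 1 - h) \ dual M T) = #{x ∈ T | h < x} := by
    intro h hM
    refine Finset.card_bij' (fun q _ => M - 1 - q) (fun q _ => M - 1 - q) ?_ ?_ ?_ ?_
    · intro q hq
      simp only [mem_dual, Finset.mem_sdiff, Finset.mem_range, Finset.mem_filter, not_and,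
        not_not] at hq ⊢
      exact ⟨hq.2 (by omega), by omega⟩
    · intro q hq
      simp only [mem_dual, Finset.mem_sdiff, Finset.mem_range, Finset.mem_filter, not_and,
        not_not] at hq ⊢
      have := Finset.mem_range.1 (hT hq.1)
      refine ⟨by omega, fun _ => ?_⟩
      rw [show M - 1 - (M - 1 - q) = q by omega]; exact hq.1
    · intro q hq
      simp only [Finset.mem_sdiff, Finset.mem_range] at hq
      omega
    · intro q hq
      simp only [Finset.mem_filter] at hq
      have := Finset.mem_range.1 (hT hq.1)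
      omega
  unfold rowEven colEven
  constructor
  · intro H h hh
    by_cases hM : h < M
    · rw [← key h hM]
      refine H _ (mem_dual.2 ⟨by omega, ?_⟩)
      rwa [show M - 1 - (M - 1 - h) = h by omega]
    · rw [Finset.filter_eq_empty_iff.2 (fun x hx => by
        have := Finset.mem_range.1 (hT hx); omega)]
      simp
  · intro H s hs
    obtain ⟨h1, h2⟩ := mem_dual.1 hs
    have := key (M - 1 - s) (by omega)
    rw [show M - 1 - (M - 1 - s) = s by omega] at this
    rw [this]; exact H _ h2

theorem dual_range (a b : ℕ) : dual (a + b) (range a) = range b := by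
  ext x; simp only [mem_dual, Finset.mem_range]; omega

theorem exists_beads {m k : ℕ} (T : Finset ℕ) (hT : #T = k)
    (hs : ∑ x ∈ T, x = m + ∑ x ∈ range k, x) : ∃ μ : m.Partition, len μ ≤ k ∧ beads k μ = T := by
  let b : Fin k →₀ ℕ := Finsupp.equivFunOnFinite.symm fun j => T.orderEmbOfFin hT (Fin.rev j)
  have hb : StrictAnti b := fun i j hij =>
    (T.orderEmbOfFin hT).strictMono (Fin.rev_lt_rev.2 hij)
  have hi : image b univ = T := by
    ext x
    simp only [Finset.mem_image, Finset.mem_univ, true_and]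
    constructor
    · rintro ⟨j, rfl⟩; exact Finset.orderEmbOfFin_mem T hT (Fin.rev j)
    · intro hx
      have : x ∈ Set.range (T.orderEmbOfFin hT) := by rw [Finset.range_orderEmbOfFin]; exact hx
      obtain ⟨j, rfl⟩ := this
      exact ⟨Fin.rev j, by simp [b]⟩
  obtain ⟨μ, h1, h2⟩ := exists_beta (m := m) b hb (by
    rw [← sum_image_eq hb.injective, hi, hs, ← image_delta,
      sum_image_eq (delta_strictAnti k).injective])
  exact ⟨μ, h1, by rw [beads, h2, hi]⟩

theorem beads_inj {m k : ℕ} {μ ν : m.Partition} (hμ : len μ ≤ k) (hν : len ν ≤ k)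
    (h : beads k μ = beads k ν) : μ = ν := by
  apply beta_inj hμ hν
  apply DFunLike.coe_injective
  rw [← (beta_strictAnti k μ).range_inj (beta_strictAnti k ν)]
  have := congrArg (fun s : Finset ℕ => (s : Set ℕ)) h
  simpa only [beads, Finset.coe_image, Finset.coe_univ, Set.image_univ] using this

open Classical in
theorem sum_part_set {m k M : ℕ} (f : Finset ℕ → ℤ)
    (hf : ∀ T, f T ≠ 0 → ∑ x ∈ T, x = m + ∑ x ∈ range k, x)
    (s : Finset m.Partition) (Q : Finset ℕ → Prop)
    (hs : ∀ μ, μ ∈ s ↔ len μ ≤ k ∧ beads k μ ⊆ range M ∧ Q (beads k μ)) :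
    ∑ μ ∈ s, f (beads k μ) = ∑ T ∈ (powersetCard k (range M)).filter Q, f T := by
  refine Finset.sum_bij_ne_zero (fun μ _ _ => beads k μ) ?_ ?_ ?_ ?_
  · intro μ h1 _
    exact Finset.mem_filter.2 ⟨Finset.mem_powersetCard.2 ⟨((hs μ).1 h1).2.1, card_beads k μ⟩,
      ((hs μ).1 h1).2.2⟩
  · intro μ h1 _ ν h2 _ h
    exact beads_inj ((hs μ).1 h1).1 ((hs ν).1 h2).1 h
  · intro T hT h
    obtain ⟨h1, h2⟩ := Finset.mem_filter.1 hT
    obtain ⟨h3, h4⟩ := Finset.mem_powersetCard.1 h1
    obtain ⟨μ, h5, rfl⟩ := exists_beads T h4 (hf T h)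
    exact ⟨μ, (hs μ).2 ⟨h5, h3, h2⟩, h, rfl⟩
  · intro μ _ _; rfl

/-- The signed sum of Murnaghan-Nakayama values over the doubled partitions. -/
noncomputable def cs (k : ℕ) (e : ℤ) {n : ℕ} (l : n.Partition) (T : Finset ℕ) : ℤ :=
  ∑ S : Finset (Fin (len l)), e ^ len (tilde l S) * mn (tilde l S).parts.toList (range k) T

theorem coeff_eq_cs (k : ℕ) (e : ℤ) (he : e * e = 1) {n : ℕ} (l : n.Partition) {b : Fin k →₀ ℕ}
    (hb : StrictAnti b) : coeff b (vand k * bigF k e l) = cs k e l (image b univ) := by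
  rw [bigF_eq k e he, Finset.mul_sum, coeff_sum]
  refine Finset.sum_congr rfl fun S _ => ?_
  rw [mul_left_comm, coeff_C_mul, coeff_vand_psumPart k _ hb]

theorem cs_sum (k : ℕ) (e : ℤ) {n : ℕ} (l : n.Partition) (T : Finset ℕ) (h : cs k e l T ≠ 0) :
    ∑ x ∈ T, x = 2 * n + ∑ x ∈ range k, x := by
  obtain ⟨S, -, hS⟩ := Finset.exists_ne_zero_of_sum_ne_zero h
  rw [mn_sum _ _ _ (right_ne_zero_of_mul hS), Multiset.sum_toList, (tilde l S).parts_sum, add_comm]

theorem cs_dual (a b : ℕ) {n : ℕ} (l : n.Partition) {T : Finset ℕ} (hT : T ⊆ range (a + b)) :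
    cs a 1 l T = cs b (-1) l (dual (a + b) T) := by
  unfold cs
  refine Finset.sum_congr rfl fun S _ => ?_
  rw [mn_dual _ (toList_pos _) (a + b) hT _ (Finset.range_subset_range.2 (Nat.le_add_right a b)),
    dual_range, Multiset.sum_toList, (tilde l S).parts_sum, Multiset.length_toList, pow_add,
    pow_mul]
  simp [len]

theorem beads_subset {m k M : ℕ} (μ : m.Partition) (h : row μ 0 + k ≤ M) :
    beads k μ ⊆ range M := by
  intro x hx
  obtain ⟨j, -, rfl⟩ := Finset.mem_image.1 hx
  have := row_antitone μ (Nat.zero_le (j : ℕ))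
  have := j.2
  rw [Finset.mem_range, beta_apply]; omega

theorem mem_evenRows' {k m : ℕ} (μ : m.Partition) : μ ∈ evenRows k m ↔
    len μ ≤ k ∧ ∀ j : Fin k, Even (row μ j) := by
  unfold evenRows
  simp only [Finset.mem_filter, Finset.mem_univ, true_and]
  exact and_congr_right fun hk => even_parts_iff μ hk

theorem row_zero_le_of_evenCols {k n : ℕ} {μ : (2 * n).Partition} (h : μ ∈ evenCols k (2 * n)) :
    row μ 0 ≤ n := by
  obtain ⟨hk, H⟩ := (mem_evenCols μ).1 h
  by_contra hn
  have hk0 : 0 < k := by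
    have := (len_le_iff μ 0).not.2 (by omega)
    omega
  have h1 := H (row μ 0 - 1)
  have h2 : 0 < #{j : Fin k | row μ 0 - 1 < row μ j} :=
    Finset.card_pos.2 ⟨⟨0, hk0⟩, by simp; omega⟩
  have h3 : 2 ≤ #{j : Fin k | row μ 0 - 1 < row μ j} := by
    rw [Nat.even_iff] at h1; omega
  have h4 := Finset.card_nsmul_le_sum {j : Fin k | row μ 0 - 1 < row μ j} (fun j => row μ j)
    (row μ 0) (fun j hj => by have := (Finset.mem_filter.1 hj).2; omega)
  have h5 : ∑ j ∈ {j : Fin k | row μ 0 - 1 < row μ j}, row μ j ≤ ∑ j : Fin k, row μ j :=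
    Finset.sum_le_sum_of_subset (Finset.subset_univ _)
  rw [sum_row_of_le μ hk] at h5
  rw [smul_eq_mul] at h4
  nlinarith

open Classical in
/-- The sum `B_N` in terms of partitions with even rows of bounded size. -/
theorem sumB_eq_rows (N : ℕ) {n : ℕ} (l : n.Partition) :
    sumB N l = ∑ μ ∈ (evenRows n (2 * n)).filter (fun μ => beads n μ ⊆ range (2 * N + n)),
      coeff (beta n μ) (vand n * bigF n (-1) l) := by
  rw [sumB_eq]
  simp only [coeff_eq_cs _ 1 (by norm_num) l (beta_strictAnti _ _),
    coeff_eq_cs _ (-1) (by norm_num) l (beta_strictAnti _ _)]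
  have h1 := sum_part_set (m := 2 * n) (k := 2 * N) (M := 2 * N + n) (cs (2 * N) 1 l)
    (cs_sum _ _ l) (evenCols (2 * N) (2 * n)) colEven (fun μ => by
      rw [colEven_beads]
      constructor
      · intro h
        have := row_zero_le_of_evenCols h
        exact ⟨((mem_evenCols μ).1 h).1, beads_subset μ (by omega), ((mem_evenCols μ).1 h).2⟩
      · intro h
        exact (mem_evenCols μ).2 ⟨h.1, h.2.2⟩)
  have h2 := sum_part_set (m := 2 * n) (k := n) (M := 2 * N + n) (cs n (-1) l)
    (cs_sum _ _ l) ((evenRows n (2 * n)).filter (fun μ => beads n μ ⊆ range (2 * N + n)))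
    rowEven (fun μ => by
      rw [rowEven_beads, Finset.mem_filter, mem_evenRows']
      tauto)
  unfold beads at h1 h2 ⊢
  rw [h1, h2]
  refine Finset.sum_bij' (fun T _ => dual (2 * N + n) T) (fun T _ => dual (2 * N + n) T)
    ?_ ?_ ?_ ?_ ?_
  · intro T hT
    obtain ⟨h3, h4⟩ := Finset.mem_filter.1 hT
    obtain ⟨h5, h6⟩ := Finset.mem_powersetCard.1 h3
    have := card_dual h5
    exact Finset.mem_filter.2 ⟨Finset.mem_powersetCard.2 ⟨dual_subset _ _, by omega⟩,
      (rowEven_dual h5).2 h4⟩
  · intro T hT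
    obtain ⟨h3, h4⟩ := Finset.mem_filter.1 hT
    obtain ⟨h5, h6⟩ := Finset.mem_powersetCard.1 h3
    have := card_dual h5
    exact Finset.mem_filter.2 ⟨Finset.mem_powersetCard.2 ⟨dual_subset _ _, by omega⟩,
      (rowEven_dual (dual_subset _ _)).1 (by rwa [dual_dual h5])⟩
  · intro T hT
    exact dual_dual (Finset.mem_powersetCard.1 (Finset.mem_filter.1 hT).1).1
  · intro T hT
    exact dual_dual (Finset.mem_powersetCard.1 (Finset.mem_filter.1 hT).1).1
  · intro T hT
    exact cs_dual _ _ l (Finset.mem_powersetCard.1 (Finset.mem_filter.1 hT).1).1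

end Pool.Agent.P.MP_3827cc_co
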