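import Mathlib

namespace Pool.Agent.P.MP_3827cc_co

open Finset MvPolynomial

/-- The part number `j` (counted from `0`) of a partition written in weakly decreasing order;
it is `0` when `j` is at least the number of parts. -/
def row {m : ℕ} (μ : m.Partition) (j : ℕ) : ℕ := (μ.parts.sort (· ≥ ·)).getD j 0

/-- The part number `i` (counted from `0`) of the conjugate partition: the number of parts
that exceed `i`. -/
def col {m : ℕ} (μ : m.Partition) (i : ℕ) : ℕ := Multiset.card (μ.parts.filter (i < ·))

/-- The number of parts. -/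
def len {m : ℕ} (μ : m.Partition) : ℕ := Multiset.card μ.parts

/-- The exponent vector `μ + δ` in `k` variables, `δ = (k - 1, k - 2, …, 0)`. -/
noncomputable def beta (k : ℕ) {m : ℕ} (μ : m.Partition) : Fin k →₀ ℕ :=
  Finsupp.equivFunOnFinite.symm (fun j => row μ j + (k - 1 - j))

/-- The Vandermonde product `∏_{i<j} (x_i - x_j)` in `k` variables. -/
noncomputable def vand (k : ℕ) : MvPolynomial (Fin k) ℤ := ∏ i, ∏ j ∈ Ioi i, (X i - X j)

/-- The irreducible character value `χ^μ_ν` of the symmetric group, given by the Frobenius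
character formula: the coefficient of `x^(μ + δ)` in `∏_{i<j} (x_i - x_j) * p_ν`, in
`ℓ(μ)` variables. -/
noncomputable def chi {m : ℕ} (μ ν : m.Partition) : ℤ :=
  coeff (beta (len μ) μ) (vand (len μ) * psumPart (Fin (len μ)) ℤ ν)

theorem row_pos {m : ℕ} (μ : m.Partition) {j : ℕ} (hj : j < len μ) : 0 < row μ j := by
  have hl : j < (μ.parts.sort (· ≥ ·)).length := by
    rw [Multiset.length_sort]; exact hj
  unfold row
  rw [List.getD_eq_getElem _ _ hl]
  apply μ.parts_pos
  rw [← Multiset.mem_sort (r := (· ≥ ·))]
  exact List.getElem_mem hl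

theorem map_row {m : ℕ} (μ : m.Partition) :
    (univ : Finset (Fin (len μ))).val.map (fun j : Fin (len μ) => row μ j) = μ.parts := by
  have hl : (μ.parts.sort (· ≥ ·)).length = len μ := Multiset.length_sort _
  conv_rhs => rw [← Multiset.sort_eq μ.parts (· ≥ ·)]
  rw [Fin.univ_val_map]
  congr 1
  apply List.ext_getElem
  · simp [hl]
  · intro i h1 h2
    simp only [List.getElem_ofFn, row]
    rw [List.getD_eq_getElem _ _ h2]

theorem sum_row {m : ℕ} (μ : m.Partition) : ∑ j : Fin (len μ), row μ j = m := by
  rw [Finset.sum_eq_multiset_sum, map_row, μ.parts_sum]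

/-- The partition of `2 n` obtained from `l` by replacing the part `l_i` with the single part
`2 l_i` for `i ∈ S` and with the two parts `l_i, l_i` for `i ∉ S`. -/
def tilde {n : ℕ} (l : n.Partition) (S : Finset (Fin (len l))) : (2 * n).Partition where
  parts := ∑ i : Fin (len l), if i ∈ S then {2 * row l i} else {row l i, row l i}
  parts_pos := by
    intro x hx
    rw [Multiset.mem_sum] at hx
    obtain ⟨i, -, hi⟩ := hx
    have := row_pos l i.2
    split_ifs at hi with h
    · simp at hi; omega
    · simp at hi; omega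
  parts_sum := by
    rw [Multiset.sum_sum]
    conv_rhs => rw [← sum_row l, Finset.mul_sum]
    refine Finset.sum_congr rfl fun i _ => ?_
    split_ifs
    · simp
    · simp; omega

/-- Partitions of `m` with at most `N` parts, all of them even. -/
def evenRows (N m : ℕ) : Finset m.Partition :=
  univ.filter fun μ => len μ ≤ N ∧ ∀ x ∈ μ.parts, Even x

open Classical in
/-- Partitions of `m` with at most `N` parts whose conjugate has only even parts. -/
noncomputable def evenCols (N m : ℕ) : Finset m.Partition :=
  univ.filter fun μ => len μ ≤ N ∧ ∀ i, Even (col μ i)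

/-- The signed sum `A_N(l)`. -/
noncomputable def sumA (N : ℕ) {n : ℕ} (l : n.Partition) : ℤ :=
  ∑ S : Finset (Fin (len l)),
    (-1) ^ len (tilde l S) * ∑ μ ∈ evenRows (2 * N + 1) (2 * n), chi μ (tilde l S)

/-- The sum `B_N(l)`. -/
noncomputable def sumB (N : ℕ) {n : ℕ} (l : n.Partition) : ℤ :=
  ∑ S : Finset (Fin (len l)), ∑ μ ∈ evenCols (2 * N) (2 * n), chi μ (tilde l S)

end Pool.Agent.P.MP_3827cc_co
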