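import Pool.Agent.P.MP_3827cc_co.Alt

namespace Pool.Agent.P.MP_3827cc_co

open Finset MvPolynomial

theorem mn_sum (l : List ℕ) (T : Finset ℕ) : ∀ S : Finset ℕ, mn l S T ≠ 0 →
    ∑ x ∈ T, x = ∑ x ∈ S, x + l.sum := by
  induction l with
  | nil =>
    intro S h
    simp only [mn, ne_eq, ite_eq_right_iff, one_ne_zero, imp_false, not_not] at h
    simp [h]
  | cons c l ih =>
    intro S h
    simp only [mn] at h
    obtain ⟨p, hp, h2⟩ := Finset.exists_ne_zero_of_sum_ne_zero h
    obtain ⟨hp1, hp2⟩ := Finset.mem_filter.1 hp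
    have h3 := ih _ (right_ne_zero_of_mul h2)
    rw [Finset.sum_insert (fun h => hp2 (Finset.mem_of_mem_erase h))] at h3
    have h4 := Finset.add_sum_erase S (fun x => x) hp1
    simp only [List.sum_cons]
    omega

theorem mn_out (l : List ℕ) (M : ℕ) {T : Finset ℕ} (hT : T ⊆ range M) :
    ∀ S : Finset ℕ, (∃ x ∈ S, M ≤ x) → mn l S T = 0 := by
  induction l with
  | nil =>
    rintro S ⟨x, hx, hM⟩
    simp only [mn]
    rw [if_neg]
    rintro rfl
    have := Finset.mem_range.1 (hT hx)
    omega
  | cons c l ih =>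
    rintro S ⟨x, hx, hM⟩
    simp only [mn]
    refine Finset.sum_eq_zero fun p hp => ?_
    rw [ih, mul_zero]
    by_cases h : x = p
    · exact ⟨p + c, Finset.mem_insert_self _ _, by omega⟩
    · exact ⟨x, Finset.mem_insert_of_mem (Finset.mem_erase.2 ⟨h, hx⟩), hM⟩

/-- Particle-hole duality in the window `0, …, M - 1`. -/
def dual (M : ℕ) (S : Finset ℕ) : Finset ℕ := {x ∈ range M | M - 1 - x ∉ S}

theorem mem_dual {M : ℕ} {S : Finset ℕ} {x : ℕ} : x ∈ dual M S ↔ x < M ∧ M - 1 - x ∉ S := by
  simp [dual]

theorem dual_subset (M : ℕ) (S : Finset ℕ) : dual M S ⊆ range M := Finset.filter_subset _ _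

theorem dual_dual {M : ℕ} {S : Finset ℕ} (hS : S ⊆ range M) : dual M (dual M S) = S := by
  ext x
  simp only [mem_dual, not_and, not_not]
  constructor
  · rintro ⟨h1, h2⟩
    have := h2 (by omega)
    rwa [show M - 1 - (M - 1 - x) = x by omega] at this
  · intro h
    have := Finset.mem_range.1 (hS h)
    refine ⟨this, fun _ => ?_⟩
    rwa [show M - 1 - (M - 1 - x) = x by omega]

theorem card_between_dual {M : ℕ} (S : Finset ℕ) {p c : ℕ} (h : p + c < M) (hc : 0 < c) :
    #{q ∈ S | p < q ∧ q < p + c} +
      #{q ∈ dual M S | M - 1 - (p + c) < q ∧ q < M - 1 - (p + c) + c} + 1 = c := by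
  have h1 : #{q ∈ dual M S | M - 1 - (p + c) < q ∧ q < M - 1 - (p + c) + c} =
      #{q ∈ Ioo p (p + c) | q ∉ S} := by
    refine Finset.card_bij' (fun q _ => M - 1 - q) (fun q _ => M - 1 - q) ?_ ?_ ?_ ?_
    · intro q hq
      simp only [Finset.mem_filter, mem_dual, Finset.mem_Ioo] at hq ⊢
      exact ⟨by omega, hq.1.2⟩
    · intro q hq
      simp only [Finset.mem_filter, mem_dual, Finset.mem_Ioo] at hq ⊢
      refine ⟨⟨by omega, ?_⟩, by omega⟩
      rw [show M - 1 - (M - 1 - q) = q by omega]; exact hq.2
    · intro q hq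
      simp only [Finset.mem_filter, mem_dual] at hq
      omega
    · intro q hq
      simp only [Finset.mem_filter, Finset.mem_Ioo] at hq
      omega
  have h2 : {q ∈ S | p < q ∧ q < p + c} = {q ∈ Ioo p (p + c) | q ∈ S} := by
    ext q; simp only [Finset.mem_filter, Finset.mem_Ioo]; tauto
  rw [h1, h2, Finset.card_filter_add_card_filter_not, Nat.card_Ioo]
  omega

theorem mn_dual (l : List ℕ) (hl : ∀ c ∈ l, 0 < c) (M : ℕ) {T : Finset ℕ} (hT : T ⊆ range M) :
    ∀ S : Finset ℕ, S ⊆ range M →
      mn l S T = (-1) ^ (l.sum + l.length) * mn l (dual M S) (dual M T) := by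
  induction l with
  | nil =>
    intro S hS
    simp only [mn, List.sum_nil, List.length_nil, add_zero, pow_zero, one_mul]
    congr 1
    apply propext
    constructor
    · rintro rfl; rfl
    · intro h; rw [← dual_dual hS, h, dual_dual hT]
  | cons c l ih =>
    intro S hS
    have ih' := ih (fun x hx => hl x (List.mem_cons_of_mem _ hx))
    have hc : 0 < c := hl c (List.mem_cons_self)
    simp only [mn]
    have cut : ∀ (U V : Finset ℕ), V ⊆ range M →
        ∑ p ∈ U with p + c ∉ U, (-1 : ℤ) ^ #{q ∈ U | p < q ∧ q < p + c} *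
          mn l (insert (p + c) (U.erase p)) V =
        ∑ p ∈ U with (p + c ∉ U ∧ p + c < M), (-1 : ℤ) ^ #{q ∈ U | p < q ∧ q < p + c} *
          mn l (insert (p + c) (U.erase p)) V := by
      intro U V hV
      symm
      apply Finset.sum_subset
      · intro p hp
        simp only [Finset.mem_filter] at hp ⊢
        tauto
      · intro p hp hp'
        simp only [Finset.mem_filter] at hp hp'
        rw [mn_out l M hV _ ⟨p + c, Finset.mem_insert_self _ _, by
          by_contra h; exact hp' ⟨hp.1, hp.2, by omega⟩⟩, mul_zero]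
    rw [cut S T hT, cut _ _ (dual_subset M T), Finset.mul_sum]
    refine Finset.sum_bij' (fun p _ => M - 1 - (p + c)) (fun p _ => M - 1 - (p + c)) ?_ ?_ ?_ ?_ ?_
    · intro p hp
      simp only [Finset.mem_filter, mem_dual, not_and, not_not] at hp ⊢
      refine ⟨⟨by omega, ?_⟩, fun _ => ?_, by omega⟩
      · rw [show M - 1 - (M - 1 - (p + c)) = p + c by omega]; exact hp.2.1
      · rw [show M - 1 - (M - 1 - (p + c) + c) = p by omega]; exact hp.1
    · intro p hp
      simp only [Finset.mem_filter, mem_dual, not_and, not_not] at hp ⊢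
      refine ⟨hp.2.1 hp.2.2, ?_, by omega⟩
      rw [show M - 1 - (p + c) + c = M - 1 - p by omega]; exact hp.1.2
    · intro p hp
      simp only [Finset.mem_filter] at hp
      omega
    · intro p hp
      simp only [Finset.mem_filter] at hp
      omega
    · intro p hp
      simp only [Finset.mem_filter] at hp
      obtain ⟨hp1, hp2, hp3⟩ := hp
      have hsub : insert (p + c) (S.erase p) ⊆ range M := by
        intro x hx
        rcases Finset.mem_insert.1 hx with h | h
        · rw [h]; exact Finset.mem_range.2 hp3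
        · exact hS (Finset.mem_of_mem_erase h)
      have hd : dual M (insert (p + c) (S.erase p)) =
          insert (M - 1 - (p + c) + c) ((dual M S).erase (M - 1 - (p + c))) := by
        ext x
        simp only [mem_dual, Finset.mem_insert, Finset.mem_erase]
        constructor
        · rintro ⟨h1, h2⟩
          push Not at h2
          by_cases h3 : M - 1 - x = p
          · left; omega
          · right; exact ⟨by omega, h1, h2.2 h3⟩
        · rintro (h | ⟨h1, h2, h3⟩)
          · refine ⟨by omega, ?_⟩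
            rintro (h4 | ⟨h4, -⟩) <;> omega
          · refine ⟨h2, ?_⟩
            rintro (h4 | ⟨-, h4⟩)
            · omega
            · exact h3 h4
      rw [ih' _ hsub, hd]
      have hcard := card_between_dual S hp3 hc
      simp only [List.sum_cons, List.length_cons]
      generalize #{q ∈ S | p < q ∧ q < p + c} = u at hcard ⊢
      generalize #{q ∈ dual M S | M - 1 - (p + c) < q ∧ q < M - 1 - (p + c) + c} = v at hcard ⊢
      subst hcard
      have e : (-1 : ℤ) ^ (u + v + 1 + l.sum + (l.length + 1)) * (-1) ^ v =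
          (-1) ^ u * (-1) ^ (l.sum + l.length) := by
        rw [← pow_add, ← pow_add, show u + v + 1 + l.sum + (l.length + 1) + v =
          u + (l.sum + l.length) + 2 * (v + 1) by ring, pow_add _ _ (2 * _), pow_mul]
        simp
      rw [← mul_assoc, ← mul_assoc, e]

/-- Adding a bead at the bottom. -/
def shift (S : Finset ℕ) : Finset ℕ := insert 0 (S.image (· + 1))

theorem dual_dual_succ {M : ℕ} {S : Finset ℕ} (hS : S ⊆ range M) :
    dual (M + 1) (dual M S) = shift S := by
  ext x
  simp only [mem_dual, shift, Finset.mem_insert, Finset.mem_image, not_and, not_not]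
  constructor
  · rintro ⟨h1, h2⟩
    by_cases hx : x = 0
    · exact Or.inl hx
    · exact Or.inr ⟨_, h2 (by omega), by omega⟩
  · rintro (h | ⟨y, hy, rfl⟩)
    · exact ⟨by omega, fun _ => by omega⟩
    · have := Finset.mem_range.1 (hS hy)
      refine ⟨by omega, fun _ => ?_⟩
      rwa [show M - 1 - (M + 1 - 1 - (y + 1)) = y by omega]

theorem mn_shift (l : List ℕ) (hl : ∀ c ∈ l, 0 < c) (S T : Finset ℕ) :
    mn l (shift S) (shift T) = mn l S T := by
  obtain ⟨M, hM⟩ := Finset.exists_nat_subset_range (S ∪ T)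
  have hS : S ⊆ range M := Finset.subset_union_left.trans hM
  have hT : T ⊆ range M := Finset.subset_union_right.trans hM
  have hr : range M ⊆ range (M + 1) := Finset.range_subset_range.2 (Nat.le_succ M)
  rw [mn_dual l hl M hT S hS, mn_dual l hl (M + 1) ((dual_subset M T).trans hr) _
    ((dual_subset M S).trans hr), dual_dual_succ hS, dual_dual_succ hT, ← mul_assoc, ← pow_add,
    ← two_mul, pow_mul]
  simp

/-- The bead configuration of a partition with `k` beads. -/
noncomputable def beads (k : ℕ) {m : ℕ} (μ : m.Partition) : Finset ℕ := image (beta k μ) univ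

theorem image_delta (k : ℕ) : image (fun j : Fin k => k - 1 - j) univ = range k := by
  ext x
  simp only [Finset.mem_image, Finset.mem_univ, true_and, Finset.mem_range]
  constructor
  · rintro ⟨j, rfl⟩; have := j.2; omega
  · intro h; exact ⟨⟨k - 1 - x, by omega⟩, by simp; omega⟩

theorem delta_strictAnti (k : ℕ) : StrictAnti (fun j : Fin k => k - 1 - j) := by
  intro i j hij
  have h2 : (i : ℕ) < j := hij
  have := j.2
  simp only; omega

theorem coeff_vand_list (k : ℕ) (l : List ℕ) (hl : ∀ c ∈ l, 0 < c) {b : Fin k →₀ ℕ}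
    (hb : StrictAnti b) :
    coeff b (vand k * (l.map (psum (Fin k) ℤ)).prod) = mn l (range k) (image b univ) := by
  rw [vand_eq, coeff_alt_mul l hl hb _ (delta_strictAnti k).injective,
    sg_strictAnti (delta_strictAnti k), image_delta, one_mul]

theorem toList_pos {m : ℕ} (ν : m.Partition) : ∀ c ∈ ν.parts.toList, 0 < c :=
  fun _ hc => ν.parts_pos (Multiset.mem_toList.1 hc)

theorem psumPart_eq (k : ℕ) {m : ℕ} (ν : m.Partition) :
    psumPart (Fin k) ℤ ν = (ν.parts.toList.map (psum (Fin k) ℤ)).prod := by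
  unfold psumPart
  conv_lhs => rw [← Multiset.coe_toList ν.parts]
  rw [Multiset.map_coe, Multiset.prod_coe]

theorem coeff_vand_psumPart (k : ℕ) {m : ℕ} (ν : m.Partition) {b : Fin k →₀ ℕ}
    (hb : StrictAnti b) :
    coeff b (vand k * psumPart (Fin k) ℤ ν) = mn ν.parts.toList (range k) (image b univ) := by
  rw [psumPart_eq, coeff_vand_list k _ (toList_pos ν) hb]

theorem shift_range (k : ℕ) : shift (range k) = range (k + 1) := by
  ext x
  simp only [shift, Finset.mem_insert, Finset.mem_image, Finset.mem_range]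
  constructor
  · rintro (h | ⟨y, hy, rfl⟩) <;> omega
  · intro h
    by_cases hx : x = 0
    · exact Or.inl hx
    · exact Or.inr ⟨x - 1, by omega, by omega⟩

theorem shift_beads {m k : ℕ} (μ : m.Partition) (hk : len μ ≤ k) :
    shift (beads k μ) = beads (k + 1) μ := by
  ext x
  simp only [shift, beads, Finset.mem_insert, Finset.mem_image, Finset.mem_univ, true_and,
    beta_apply]
  constructor
  · rintro (h | ⟨y, ⟨j, rfl⟩, rfl⟩)
    · exact ⟨Fin.last k, by simp [row_eq_zero μ hk, h]⟩
    · have := j.2
      exact ⟨j.castSucc, by simp; omega⟩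
  · rintro ⟨j, rfl⟩
    by_cases hj : (j : ℕ) < k
    · exact Or.inr ⟨_, ⟨⟨j, hj⟩, rfl⟩, by simp; omega⟩
    · have := j.2
      left
      rw [row_eq_zero μ (by omega)]; omega

theorem chi_eq_mn {m : ℕ} (μ ν : m.Partition) {k : ℕ} (hk : len μ ≤ k) :
    chi μ ν = mn ν.parts.toList (range k) (beads k μ) := by
  induction k, hk using Nat.le_induction with
  | base => exact coeff_vand_psumPart _ ν (beta_strictAnti _ μ)
  | succ k hk ih => rw [ih, ← shift_range, ← shift_beads μ hk, mn_shift _ (toList_pos ν)]

theorem chi_eq_coeff {m : ℕ} (μ ν : m.Partition) {k : ℕ} (hk : len μ ≤ k) :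
    chi μ ν = coeff (beta k μ) (vand k * psumPart (Fin k) ℤ ν) := by
  rw [chi_eq_mn μ ν hk, coeff_vand_psumPart _ ν (beta_strictAnti _ μ)]; rfl

end Pool.Agent.P.MP_3827cc_co
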