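import Pool.Agent.P.MP_3827cc_co.Top

namespace Pool.Agent.P.MP_3827cc_co

open Finset MvPolynomial

open Classical in
/-- The signed number of ways of moving one bead by `a` to a configuration with even rows. -/
noncomputable def oneMove (a : ℕ) (S : Finset ℕ) : ℤ :=
  ∑ q ∈ S with q + a ∉ S, (-1) ^ #{x ∈ S | q < x ∧ x < q + a} *
    if rowEven (insert (q + a) (S.erase q)) then 1 else 0

open Classical in
theorem sum_mn_one {k M a : ℕ} (S : Finset ℕ) (hS : #S = k) (hM : ∀ x ∈ S, x + a < M) :
    ∑ T ∈ (powersetCard k (range M)).filter rowEven, mn [a] S T = oneMove a S := by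
  simp only [mn, oneMove]
  rw [Finset.sum_comm]
  refine Finset.sum_congr rfl fun q hq => ?_
  obtain ⟨h1, h2⟩ := Finset.mem_filter.1 hq
  rw [← Finset.mul_sum, Finset.sum_ite_eq]
  congr 1
  have h3 : insert (q + a) (S.erase q) ∈ powersetCard k (range M) := by
    refine Finset.mem_powersetCard.2 ⟨fun x hx => ?_, ?_⟩
    · rcases Finset.mem_insert.1 hx with h | h
      · rw [h]; exact Finset.mem_range.2 (hM q h1)
      · have := hM x (Finset.mem_of_mem_erase h)
        exact Finset.mem_range.2 (by omega)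
    · rw [Finset.card_insert_of_notMem (fun h => h2 (Finset.mem_of_mem_erase h)),
        Finset.card_erase_add_one h1, hS]
  simp only [Finset.mem_filter, h3, true_and]

theorem not_rowEven_one {T : Finset ℕ} (s h : ℕ) (hs : s ∈ T) (H : range s \ T = {h}) :
    ¬ rowEven T := fun hT => by
  have := hT s hs
  rw [H] at this
  simp at this

theorem not_rowEven_three {T : Finset ℕ} (s x y z : ℕ) (hs : s ∈ T) (hxy : x < y) (hyz : y < z)
    (H : range s \ T = {x, y, z}) : ¬ rowEven T := fun hT => by
  have := hT s hs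
  rw [H, Finset.card_eq_three.2 ⟨x, y, z, by omega, by omega, by omega, rfl⟩] at this
  exact absurd this (by decide)

theorem even_holes {T : Finset ℕ} (s x y z w : ℕ) (hyz : y ≤ z) (he : (y - x + (w - z)) % 2 = 0)
    (H : range s \ T = Ico x y ∪ Ico z w) : Even #(range s \ T) := by
  rw [H, Finset.card_union_of_disjoint, Nat.card_Ico, Nat.card_Ico, Nat.even_iff]
  · exact he
  · rw [Finset.disjoint_left]
    intro v h1 h2
    simp only [Finset.mem_Ico] at h1 h2
    omega

theorem card_eq_Ico {T : Finset ℕ} (x y : ℕ) (H : T = Ico x y) : #T = y - x := by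
  rw [H, Nat.card_Ico]

theorem oneMove_one (t : ℕ) :
    oneMove (2 * t + 5) (insert (2 * t + 6 + 3) ((range (2 * t + 7)).erase (2 * t + 6))) = 0 := by
  unfold oneMove
  rw [Finset.sum_eq_add_of_mem (2 * t + 9) (2 * t + 5) (by simp; omega) (by simp; omega) (by omega)]
  · rw [if_pos, if_pos, card_eq_Ico 0 0 (by ext x; simp; omega),
      card_eq_Ico (2 * t + 9) (2 * t + 10) (by ext x; simp; omega)]
    · simp
    · intro s hs
      simp only [Finset.mem_insert, Finset.mem_erase, Finset.mem_range] at hs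
      by_cases h1 : s < 2 * t + 5
      · exact even_holes s 0 0 0 0 le_rfl rfl (by ext x; simp; omega)
      by_cases h2 : s = 2 * t + 9
      · exact even_holes s 0 0 (2 * t + 5) (2 * t + 9) (by omega) (by omega) (by ext x; simp; omega)
      · exact even_holes s (2 * t + 5) (2 * t + 9) (2 * t + 10) (4 * t + 10) (by omega) (by omega)
          (by ext x; simp; omega)
    · intro s hs
      simp only [Finset.mem_insert, Finset.mem_erase, Finset.mem_range] at hs
      by_cases h1 : s < 2 * t + 6
      · exact even_holes s 0 0 0 0 le_rfl rfl (by ext x; simp; omega)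
      · exact even_holes s 0 0 (2 * t + 6) (4 * t + 14) (by omega) (by omega)
          (by ext x; simp; omega)
  · intro q hq hne
    simp only [Finset.mem_filter, Finset.mem_insert, Finset.mem_erase, Finset.mem_range] at hq
    rw [if_neg (not_rowEven_one (2 * t + 5) q (by simp; omega) (by ext x; simp; omega)), mul_zero]

theorem oneMove_two (t : ℕ) :
    oneMove (2 * t + 5) (insert (2 * t + 5 + 3) ((range (2 * t + 7)).erase (2 * t + 5))) = 0 := by
  unfold oneMove
  refine Finset.sum_eq_zero fun q hq => ?_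
  simp only [Finset.mem_filter, Finset.mem_insert, Finset.mem_erase, Finset.mem_range] at hq
  rw [if_neg, mul_zero]
  by_cases h1 : q = 2 * t + 8
  · exact not_rowEven_one (2 * t + 6) (2 * t + 5) (by simp; omega) (by ext x; simp; omega)
  by_cases h2 : q = 2 * t + 6
  · exact not_rowEven_three (2 * t + 8) (2 * t + 5) (2 * t + 6) (2 * t + 7) (by simp; omega)
      (by omega) (by omega) (by ext x; simp; omega)
  by_cases h3 : q = 0
  · exact not_rowEven_one 1 0 (by simp; omega) (by ext x; simp; omega)
  by_cases h4 : q = 2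
  · exact not_rowEven_one 3 2 (by simp; omega) (by ext x; simp; omega)
  · exact not_rowEven_three (2 * t + 8) q (2 * t + 5) (2 * t + 7) (by simp; omega)
      (by omega) (by omega) (by ext x; simp; omega)

theorem oneMove_three (t : ℕ) :
    oneMove (2 * t + 5) (insert (2 * t + 4 + 3) ((range (2 * t + 7)).erase (2 * t + 4))) = 0 := by
  unfold oneMove
  rw [Finset.sum_eq_add_of_mem (2 * t + 5) (2 * t + 3) (by simp; omega) (by simp; omega) (by omega)]
  · rw [if_pos, if_pos, card_eq_Ico (2 * t + 6) (2 * t + 8) (by ext x; simp; omega),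
      card_eq_Ico (2 * t + 5) (2 * t + 8) (by ext x; simp; omega)]
    · rw [show 2 * t + 8 - (2 * t + 6) = 2 by omega, show 2 * t + 8 - (2 * t + 5) = 3 by omega]
      norm_num
    · intro s hs
      simp only [Finset.mem_insert, Finset.mem_erase, Finset.mem_range] at hs
      by_cases h1 : s < 2 * t + 3
      · exact even_holes s 0 0 0 0 le_rfl rfl (by ext x; simp; omega)
      by_cases h2 : s < 2 * t + 8
      · exact even_holes s 0 0 (2 * t + 3) (2 * t + 5) (by omega) (by omega) (by ext x; simp; omega)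
      · exact even_holes s (2 * t + 3) (2 * t + 5) (2 * t + 8) (4 * t + 8) (by omega) (by omega)
          (by ext x; simp; omega)
    · intro s hs
      simp only [Finset.mem_insert, Finset.mem_erase, Finset.mem_range] at hs
      by_cases h1 : s < 2 * t + 4
      · exact even_holes s 0 0 0 0 le_rfl rfl (by ext x; simp; omega)
      by_cases h2 : s < 2 * t + 8
      · exact even_holes s 0 0 (2 * t + 4) (2 * t + 6) (by omega) (by omega) (by ext x; simp; omega)
      · exact even_holes s (2 * t + 4) (2 * t + 6) (2 * t + 8) (4 * t + 10) (by omega) (by omega)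
          (by ext x; simp; omega)
  · intro q hq hne
    simp only [Finset.mem_filter, Finset.mem_insert, Finset.mem_erase, Finset.mem_range] at hq
    rw [if_neg, mul_zero]
    by_cases h1 : 2 * t + 5 < q
    · exact not_rowEven_one (2 * t + 5) (2 * t + 4) (by simp; omega) (by ext x; simp; omega)
    · exact not_rowEven_one (2 * t + 3) q (by simp; omega) (by ext x; simp; omega)

/-- The partition `(2 t + 5, 3)`. -/
def bad (t : ℕ) : (2 * (t + 3) + 1 + 1).Partition where
  parts := {3, 2 * t + 5}
  parts_pos := by intro i hi; simp at hi; omega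
  parts_sum := by simp; omega

theorem sum_chi_bad (t : ℕ) :
    ∑ ν ∈ evenRows (2 * (t + 3) + 1) (2 * (t + 3) + 1 + 1), chi ν (bad t) = 0 := by
  classical
  have hl : ∀ c ∈ [3, 2 * t + 5], 0 < c := by intro c hc; simp at hc; omega
  have h1 : ∀ ν ∈ evenRows (2 * (t + 3) + 1) (2 * (t + 3) + 1 + 1), chi ν (bad t) =
      mn [3, 2 * t + 5] (range (2 * (t + 3) + 1)) (beads (2 * (t + 3) + 1) ν) := by
    intro ν hν
    rw [chi_eq_coeff ν _ ((mem_evenRows ν).1 hν).1, beads,
      ← coeff_vand_list _ _ hl (beta_strictAnti _ ν)]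
    simp [psumPart, bad]
  rw [Finset.sum_congr rfl h1, sum_part_set (m := 2 * (t + 3) + 1 + 1) (k := 2 * (t + 3) + 1)
    (M := 4 * t + 15) _ (fun T h => by rw [mn_sum _ _ _ h]; simp; omega) _ rowEven (fun μ => by
      rw [rowEven_beads, mem_evenRows']
      have := beads_subset (k := 2 * (t + 3) + 1) (M := 4 * t + 15) μ
        (by have := row_zero_le μ; omega)
      tauto)]
  rw [show 2 * (t + 3) + 1 = 2 * t + 7 by ring]
  conv_lhs => enter [2, T]; rw [mn]
  rw [Finset.sum_comm]
  refine Finset.sum_eq_zero fun p hp => ?_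
  simp only [Finset.mem_filter, Finset.mem_range] at hp
  rw [← Finset.mul_sum, sum_mn_one _ (by
      rw [Finset.card_insert_of_notMem (by simp; omega),
        Finset.card_erase_add_one (by simp; omega), Finset.card_range])
    (by intro x hx; simp at hx; omega)]
  have : p = 2 * t + 6 ∨ p = 2 * t + 5 ∨ p = 2 * t + 4 := by omega
  rcases this with rfl | rfl | rfl
  · rw [oneMove_one, mul_zero]
  · rw [oneMove_two, mul_zero]
  · rw [oneMove_three, mul_zero]

theorem psi_three_mul {M : Type} [AddCommGroup M] (w : M → ℤ) (a b c : M)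
    (H : AddMonoidAlgebra ℤ M) : psi w ((mono a + mono b + mono c) * H) =
      psi (fun x => w (a + x) + w (b + x) + w (c + x)) H := by
  rw [add_mul, add_mul, map_add, map_add, psi_mono_mul, psi_mono_mul, psi_mono_mul]
  induction H using AddMonoidAlgebra.induction_linear with
  | zero => simp
  | add x y hx hy => simp only [map_add, ← hx, ← hy]; ring
  | single m r => simp only [psi_single]; ring

theorem coeff_twoRow (n : ℕ) (G : MvPolynomial (Fin 2) ℤ) : coeff (twoRow n) G =
    psi (fun x : ℤ × ℤ => if x.1 = n + 1 ∧ x.2 = n then 1 else 0) (ev ![(1, 0), (0, 1)] G) := by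
  classical
  rw [psi_ev, Finset.sum_eq_single (twoRow n)]
  · simp [twoRow]
  · intro b _ hb
    rw [if_neg, mul_zero]
    intro h
    apply hb
    simp at h
    ext i
    fin_cases i <;> simp [twoRow] <;> omega
  · intro h
    rw [notMem_support_iff.1 h, zero_mul]

theorem coeff_twoRow_bad (t : ℕ) :
    coeff (twoRow (2 * (t + 3) + 1 + 1)) (vand 2 * bigF 2 1 (bad t)) = 4 := by
  rw [coeff_twoRow, bigF_parts]
  have hv : vand 2 = X 0 - X 1 := by simp [vand, Fin.prod_univ_succ, Fin.prod_Ioi_succ]
  have hf : ∀ a : ℕ, ev ![((1, 0) : ℤ × ℤ), (0, 1)]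
      (psum (Fin 2) ℤ a ^ 2 + C 1 * psum (Fin 2) ℤ (2 * a)) =
      2 * (mono ((2 * a : ℤ), (0 : ℤ)) + mono ((a : ℤ), (a : ℤ)) + mono ((0 : ℤ), (2 * a : ℤ))) := by
    intro a
    have e1 : mono ((2 * a : ℤ), (0 : ℤ)) = mono ((a : ℤ), (0 : ℤ)) * mono ((a : ℤ), (0 : ℤ)) := by
      rw [mono_mul]; congr 1; ext <;> simp; ring
    have e2 : mono ((a : ℤ), (a : ℤ)) = mono ((a : ℤ), (0 : ℤ)) * mono ((0 : ℤ), (a : ℤ)) := by
      rw [mono_mul]; congr 1; ext <;> simp
    have e3 : mono ((0 : ℤ), (2 * a : ℤ)) = mono ((0 : ℤ), (a : ℤ)) * mono ((0 : ℤ), (a : ℤ)) := by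
      rw [mono_mul]; congr 1; ext <;> simp; ring
    rw [map_add, map_pow, map_mul, ev_psum, ev_psum, Fin.sum_univ_two, Fin.sum_univ_two,
      mul_comm 2 a, pow_mul, pow_mul, e1, e2, e3]
    simp only [mono_pow _ a]
    simp
    ring
  have hX : ev ![((1, 0) : ℤ × ℤ), (0, 1)] (X 0 - X 1) = mono (1, 0) - mono (0, 1) := by
    simp [ev]
  simp only [bad, Multiset.insert_eq_cons, Multiset.map_cons, Multiset.map_singleton,
    Multiset.prod_cons, Multiset.prod_singleton, map_mul, hf, hv, hX]
  have e : ∀ P Q R : AddMonoidAlgebra ℤ (ℤ × ℤ),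
      P * (2 * Q * (2 * R)) = (4 : ℤ) • (P * (Q * (R * mono 0))) := by
    intro P Q R; rw [mono_zero, zsmul_eq_mul]; push_cast; ring
  rw [e, map_zsmul, psi_diff_mul, psi_three_mul, psi_three_mul, mono, psi_single]
  simp only [add_zero, Prod.mk_add_mk]
  simp (disch := (push_cast; omega)) only [if_pos, if_neg]
  norm_num

theorem sumA_sub_sumB_bad (t : ℕ) : sumA (t + 3) (bad t) - sumB (t + 3) (bad t) = -4 := by
  rw [sumA_sub_sumB, sum_chi_bad, coeff_twoRow_bad]; simp

end Pool.Agent.P.MP_3827cc_co
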