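import Pool.Agent.P.MP_3827cc_co.Sums

namespace Pool.Agent.P.MP_3827cc_co

open Finset MvPolynomial

section
variable {M : Type} [AddCommGroup M]

/-- The Laurent monomial with exponent `m`. -/
noncomputable def mono (m : M) : AddMonoidAlgebra ℤ M := AddMonoidAlgebra.single m 1

theorem mono_mul (a b : M) : mono a * mono b = mono (a + b) := by
  simp [mono, AddMonoidAlgebra.single_mul_single]

theorem mono_zero : mono (0 : M) = 1 := rfl

theorem mono_pow (a : M) (n : ℕ) : mono a ^ n = mono (n • a) := by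
  induction n with
  | zero => simp [mono_zero]
  | succ n ih => rw [pow_succ, ih, mono_mul, succ_nsmul]

theorem mono_prod {ι : Type*} (s : Finset ι) (f : ι → M) :
    ∏ i ∈ s, mono (f i) = mono (∑ i ∈ s, f i) := by
  classical
  induction s using Finset.induction_on with
  | empty => simp [mono_zero]
  | insert a s ha ih => rw [Finset.prod_insert ha, Finset.sum_insert ha, ih, mono_mul]

/-- The linear functional with weight `w`. -/
noncomputable def psi (w : M → ℤ) : AddMonoidAlgebra ℤ M →+ ℤ :=
  (Finsupp.liftAddHom fun m => AddMonoidHom.mulRight (w m)).comp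
    AddMonoidAlgebra.coeffAddEquiv.toAddMonoidHom

omit [AddCommGroup M] in
theorem psi_single (w : M → ℤ) (m : M) (c : ℤ) :
    psi w (AddMonoidAlgebra.single m c) = c * w m := by
  simp [psi]

theorem psi_mono_mul (w : M → ℤ) (a : M) (H : AddMonoidAlgebra ℤ M) :
    psi w (mono a * H) = psi (fun x => w (a + x)) H := by
  induction H using AddMonoidAlgebra.induction_linear with
  | zero => simp
  | add x y hx hy => rw [mul_add, map_add, map_add, hx, hy]
  | single m r => simp [mono, AddMonoidAlgebra.single_mul_single, psi_single]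

theorem psi_sub (w w' : M → ℤ) (H : AddMonoidAlgebra ℤ M) :
    psi w H - psi w' H = psi (fun x => w x - w' x) H := by
  induction H using AddMonoidAlgebra.induction_linear with
  | zero => simp
  | add x y hx hy => simp only [map_add, ← hx, ← hy]; ring
  | single m r => simp only [psi_single]; ring

theorem psi_const_mul (c : ℤ) (w : M → ℤ) (H : AddMonoidAlgebra ℤ M) :
    psi (fun x => c * w x) H = c * psi w H := by
  induction H using AddMonoidAlgebra.induction_linear with
  | zero => simp
  | add x y hx hy => simp only [map_add, hx, hy]; ring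
  | single m r => simp only [psi_single]; ring

theorem psi_diff_mul (w : M → ℤ) (a b : M) (H : AddMonoidAlgebra ℤ M) :
    psi w ((mono a - mono b) * H) = psi (fun x => w (a + x) - w (b + x)) H := by
  rw [sub_mul, map_sub, psi_mono_mul, psi_mono_mul, psi_sub]

/-- Substitution of Laurent monomials for the variables. -/
noncomputable def ev {k : ℕ} (v : Fin k → M) : MvPolynomial (Fin k) ℤ →ₐ[ℤ] AddMonoidAlgebra ℤ M :=
  aeval fun i => mono (v i)

theorem psi_ev {k : ℕ} (v : Fin k → M) (w : M → ℤ) (G : MvPolynomial (Fin k) ℤ) :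
    psi w (ev v G) = ∑ b ∈ G.support, coeff b G * w (∑ i, b i • v i) := by
  conv_lhs => rw [G.as_sum]
  rw [map_sum, map_sum]
  refine Finset.sum_congr rfl fun b _ => ?_
  unfold ev
  rw [aeval_monomial, Finsupp.prod_fintype _ _ (by simp)]
  simp only [mono_pow, mono_prod]
  rw [← Algebra.smul_def, map_zsmul, mono, psi_single]
  simp

theorem ev_psum {k : ℕ} (v : Fin k → M) (a : ℕ) :
    ev v (psum (Fin k) ℤ a) = ∑ i, mono (v i) ^ a := by
  simp [ev, psum]

end

/-- The weight for even rows, on doubled arguments. -/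
def etaA (x : ℤ) : ℤ := if x % 4 = 2 then (if 0 < x then 1 else -1) else 0

/-- The weight for even columns. -/
def etaB (x : ℤ) : ℤ := (if x = 1 then 1 else 0) - (if x = -1 then 1 else 0)

theorem etaA_diff (x : ℤ) : etaA (2 + x) - etaA (-2 + x) = if x = 0 then 2 else 0 := by
  unfold etaA
  split_ifs <;> omega

/-- Parity pattern weights. -/
def tabA {k : ℕ} (π : Fin k → Bool) (i j : Fin k) : ℤ :=
  if π i = π j then 0 else if i < j then 1 else -1

/-- Adjacency pattern weights. -/
def tabB {k : ℕ} (π : Fin k → Bool) (i j : Fin k) : ℤ :=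
  (if i.val + 1 = j.val ∧ π i = true then 1 else 0) -
    (if j.val + 1 = i.val ∧ π j = true then 1 else 0)

theorem tab5 : ∀ π : Fin 5 → Bool, ∑ σ : Equiv.Perm (Fin 5),
    (Equiv.Perm.sign σ : ℤ) * (tabA π (σ 0) (σ 1) * tabA π (σ 2) (σ 3)) =
    if π 0 ≠ π 1 ∧ π 1 ≠ π 2 ∧ π 2 ≠ π 3 ∧ π 3 ≠ π 4 then 32 else 0 := by decide +kernel

theorem tab3 : ∀ π : Fin 3 → Bool, ∑ σ : Equiv.Perm (Fin 3),
    (Equiv.Perm.sign σ : ℤ) * tabA π (σ 0) (σ 1) =
    if π 0 ≠ π 1 ∧ π 1 ≠ π 2 then 4 else 0 := by decide +kernel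

theorem tab4 : ∀ π : Fin 4 → Bool, ∑ σ : Equiv.Perm (Fin 4),
    (Equiv.Perm.sign σ : ℤ) * (tabB π (σ 0) (σ 1) * tabB π (σ 2) (σ 3)) =
    if π 0 = true ∧ π 2 = true then 8 else 0 := by decide +kernel

theorem tab2 : ∀ π : Fin 2 → Bool, ∑ σ : Equiv.Perm (Fin 2),
    (Equiv.Perm.sign σ : ℤ) * tabB π (σ 0) (σ 1) = if π 0 = true then 2 else 0 := by
  decide +kernel

theorem etaA_eq {k : ℕ} {b : Fin k → ℕ} (hb : StrictAnti b) (i j : Fin k) :
    etaA (2 * ((b i : ℤ) - b j)) = tabA (fun i => decide (b i % 2 = 0)) i j := by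
  unfold etaA tabA
  simp only [decide_eq_decide]
  rcases lt_trichotomy i j with h | h | h
  · have := hb h
    rw [if_pos h]
    split_ifs <;> omega
  · subst h; simp
  · have := hb h
    rw [if_neg h.not_gt]
    split_ifs <;> omega

theorem adj_iff {k : ℕ} {b : Fin k → ℕ} (hb : StrictAnti b) (i j : Fin k) :
    (b i : ℤ) - b j = 1 ↔ i.val + 1 = j.val ∧
      decide (∃ j' : Fin k, i.val + 1 = j'.val ∧ b i = b j' + 1) = true := by
  simp only [decide_eq_true_eq]
  constructor
  · intro h
    have hij : i < j := hb.lt_iff_gt.1 (by omega)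
    have h1 := strictAnti_ge hb i j hij.le
    have h2 : i.val < j.val := hij
    exact ⟨by omega, j, by omega, by omega⟩
  · rintro ⟨h1, j', h2, h3⟩
    have : j' = j := Fin.ext (by omega)
    subst this
    omega

theorem etaB_eq {k : ℕ} {b : Fin k → ℕ} (hb : StrictAnti b) (i j : Fin k) :
    etaB ((b i : ℤ) - b j) =
      tabB (fun i => decide (∃ j' : Fin k, i.val + 1 = j'.val ∧ b i = b j' + 1)) i j := by
  unfold etaB tabB
  simp only [← adj_iff hb]
  split_ifs <;> omega

theorem mem_evenRows {k m : ℕ} (μ : m.Partition) : μ ∈ evenRows k m ↔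
    len μ ≤ k ∧ ∀ j : Fin k, (beta k μ j + (k - 1 - j)) % 2 = 0 := by
  unfold evenRows
  simp only [Finset.mem_filter, Finset.mem_univ, true_and]
  refine and_congr_right fun hk => ?_
  rw [even_parts_iff μ hk]
  refine forall_congr' fun j => ?_
  rw [beta_apply, Nat.even_iff]
  omega

theorem mem_evenCols {k m : ℕ} (μ : m.Partition) : μ ∈ evenCols k m ↔
    len μ ≤ k ∧ ∀ i, Even #{j : Fin k | i < row μ j} := by
  unfold evenCols
  simp only [Finset.mem_filter, Finset.mem_univ, true_and]
  refine and_congr_right fun hk => ?_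
  simp only [col_eq μ hk]

end Pool.Agent.P.MP_3827cc_co
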