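import Pool.Agent.P.MP_3827cc_co.Defs

namespace Pool.Agent.P.MP_3827cc_co

open Finset MvPolynomial

theorem row_eq_zero {m : ℕ} (μ : m.Partition) {j : ℕ} (hj : len μ ≤ j) : row μ j = 0 := by
  unfold row
  apply List.getD_eq_default
  rw [Multiset.length_sort]; exact hj

theorem row_antitone {m : ℕ} (μ : m.Partition) : Antitone (row μ) := by
  intro i j hij
  by_cases hj : j < len μ
  · have hl : (μ.parts.sort (· ≥ ·)).length = len μ := Multiset.length_sort _
    unfold row
    rw [List.getD_eq_getElem _ _ (hl ▸ hj), List.getD_eq_getElem _ _ (hl ▸ (lt_of_le_of_lt hij hj))]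
    rcases eq_or_lt_of_le hij with h | h
    · subst h; exact le_rfl
    · exact List.pairwise_iff_getElem.1 (Multiset.pairwise_sort μ.parts (· ≥ ·)) i j _ _ h
  · rw [row_eq_zero μ (not_lt.1 hj)]; exact Nat.zero_le _

theorem map_row_of_le {m : ℕ} (μ : m.Partition) {k : ℕ} (hk : len μ ≤ k) :
    (univ : Finset (Fin k)).val.map (fun j : Fin k => row μ j)
      = μ.parts + Multiset.replicate (k - len μ) 0 := by
  have hl : (μ.parts.sort (· ≥ ·)).length = len μ := Multiset.length_sort _
  conv_rhs => rw [← Multiset.sort_eq μ.parts (· ≥ ·), ← Multiset.coe_replicate, Multiset.coe_add]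
  rw [Fin.univ_val_map]
  congr 1
  apply List.ext_getElem
  · simp [hl]; omega
  · intro i h1 h2
    simp only [List.getElem_ofFn]
    by_cases hi : i < len μ
    · rw [List.getElem_append_left (hl ▸ hi)]
      unfold row
      rw [List.getD_eq_getElem _ _ (hl ▸ hi)]
    · rw [List.getElem_append_right (hl ▸ not_lt.1 hi), row_eq_zero μ (not_lt.1 hi)]
      simp

theorem sum_row_of_le {m : ℕ} (μ : m.Partition) {k : ℕ} (hk : len μ ≤ k) :
    ∑ j : Fin k, row μ j = m := by
  rw [Finset.sum_eq_multiset_sum, map_row_of_le μ hk]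
  simp [μ.parts_sum]

theorem part_ext {m : ℕ} {μ ν : m.Partition} {k : ℕ} (hμ : len μ ≤ k) (hν : len ν ≤ k)
    (h : ∀ j : Fin k, row μ j = row ν j) : μ = ν := by
  have h1 := map_row_of_le μ hμ
  have h2 := map_row_of_le ν hν
  rw [show (fun j : Fin k => row μ j) = (fun j : Fin k => row ν j) from funext h, h2] at h1
  apply Nat.Partition.ext
  ext a
  by_cases ha : a = 0
  · subst ha
    rw [Multiset.count_eq_zero.2 (fun h => (lt_irrefl _ (μ.parts_pos h))),
      Multiset.count_eq_zero.2 (fun h => (lt_irrefl _ (ν.parts_pos h)))]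
  · have := congrArg (Multiset.count a) h1
    simp only [Multiset.count_add, Multiset.count_replicate, if_neg (Ne.symm ha)] at this
    omega

theorem antitone_ext {k : ℕ} {r s : Fin k → ℕ} (hr : Antitone r) (hs : Antitone s)
    (h : (univ : Finset (Fin k)).val.map r = (univ : Finset (Fin k)).val.map s) : r = s := by
  rw [Fin.univ_val_map, Fin.univ_val_map, Multiset.coe_eq_coe] at h
  apply List.ofFn_injective
  refine List.Perm.eq_of_pairwise' (r := (· ≥ ·)) ?_ ?_ h
  · rw [List.pairwise_ofFn]; intro i j hij; exact hr hij.le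
  · rw [List.pairwise_ofFn]; intro i j hij; exact hs hij.le

theorem exists_part {m k : ℕ} (r : Fin k → ℕ) (hr : Antitone r) (hs : ∑ j, r j = m) :
    ∃ μ : m.Partition, len μ ≤ k ∧ ∀ j : Fin k, row μ j = r j := by
  let s : Multiset ℕ := (univ : Finset (Fin k)).val.map r
  have hsum : s.sum = m := by rw [← hs, Finset.sum_eq_multiset_sum]
  have hc : Multiset.card s = k := by simp [s]
  let μ : m.Partition := Nat.Partition.ofSums m s hsum
  have hp : μ.parts = s.filter (· ≠ 0) := rfl
  have hl : len μ ≤ k := by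
    unfold len; rw [hp, ← hc]; exact Multiset.card_le_card (Multiset.filter_le _ _)
  refine ⟨μ, hl, fun j => ?_⟩
  have key : (fun j : Fin k => row μ j) = r := by
    apply antitone_ext (fun i j hij => row_antitone μ hij) hr
    rw [map_row_of_le μ hl]
    have h0 : s.filter (· ≠ 0) + s.filter (fun a => ¬ a ≠ 0) = s := Multiset.filter_add_not _ _
    have h1 : s.filter (fun a => ¬ a ≠ 0) = Multiset.replicate (k - len μ) 0 := by
      rw [Multiset.eq_replicate]
      refine ⟨?_, fun b hb => by simpa using (Multiset.mem_filter.1 hb).2⟩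
      have := congrArg Multiset.card h0
      rw [Multiset.card_add, hc, ← hp] at this
      unfold len; omega
    rw [hp, ← h1, h0]
  exact congrFun key j

theorem even_parts_iff {m : ℕ} (μ : m.Partition) {k : ℕ} (hk : len μ ≤ k) :
    (∀ x ∈ μ.parts, Even x) ↔ ∀ j : Fin k, Even (row μ j) := by
  have h := map_row_of_le μ hk
  constructor
  · intro H j
    have : row μ j ∈ μ.parts + Multiset.replicate (k - len μ) 0 := by
      rw [← h]; exact Multiset.mem_map.2 ⟨j, by simp, rfl⟩
    rcases Multiset.mem_add.1 this with h1 | h1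
    · exact H _ h1
    · rw [Multiset.eq_of_mem_replicate h1]; exact Even.zero
  · intro H x hx
    have : x ∈ (univ : Finset (Fin k)).val.map (fun j : Fin k => row μ j) := by
      rw [h]; exact Multiset.mem_add.2 (Or.inl hx)
    obtain ⟨j, -, rfl⟩ := Multiset.mem_map.1 this
    exact H j

theorem col_eq {m : ℕ} (μ : m.Partition) {k : ℕ} (hk : len μ ≤ k) (i : ℕ) :
    col μ i = #{j : Fin k | i < row μ j} := by
  have h := congrArg (fun s => Multiset.card (Multiset.filter (i < ·) s)) (map_row_of_le μ hk)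
  simp only [Multiset.filter_add, Multiset.card_add] at h
  have h0 : Multiset.filter (fun x => i < x) (Multiset.replicate (k - len μ) 0) = 0 :=
    Multiset.filter_eq_nil.2 (fun a ha => by rw [Multiset.eq_of_mem_replicate ha]; omega)
  rw [h0, Multiset.filter_map, Multiset.card_map] at h
  unfold col
  simp only [Multiset.card_zero, add_zero] at h
  rw [← h]; rfl

theorem len_le_iff {m : ℕ} (μ : m.Partition) (k : ℕ) : len μ ≤ k ↔ row μ k = 0 := by
  refine ⟨row_eq_zero μ, fun h => ?_⟩
  by_contra hk
  have := row_pos μ (not_le.1 hk)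
  omega

@[simp] theorem beta_apply (k : ℕ) {m : ℕ} (μ : m.Partition) (j : Fin k) :
    beta k μ j = row μ j + (k - 1 - j) := rfl

theorem beta_strictAnti (k : ℕ) {m : ℕ} (μ : m.Partition) : StrictAnti (beta k μ) := by
  intro i j hij
  have h1 := row_antitone μ (show (i : ℕ) ≤ j from hij.le)
  have h2 : (i : ℕ) < j := hij
  have := j.2
  simp only [beta_apply]; omega

theorem strictAnti_ge {k : ℕ} {b : Fin k → ℕ} (hb : StrictAnti b) (i j : Fin k) (hij : i ≤ j) :
    b j + ((j : ℕ) - i) ≤ b i := by
  obtain ⟨i, hi⟩ := i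
  obtain ⟨j, hj⟩ := j
  have hij' : i ≤ j := hij
  induction j, hij' using Nat.le_induction with
  | base => simp
  | succ j hij' ih =>
    have h1 := ih (by omega) hij'
    have h2 : b ⟨j + 1, hj⟩ < b ⟨j, by omega⟩ := hb (by simp [Fin.lt_def])
    simp only at h1 ⊢
    omega

theorem strictAnti_low {k : ℕ} {b : Fin k → ℕ} (hb : StrictAnti b) (i : Fin k) :
    k - 1 - i ≤ b i := by
  have hk := i.2
  have := strictAnti_ge hb i ⟨k - 1, by omega⟩ (by simp [Fin.le_def]; omega)
  simp only at this
  omega

/-- Every strictly decreasing exponent vector of the right degree is `μ + δ`. -/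
theorem exists_beta {m k : ℕ} (b : Fin k →₀ ℕ) (hb : StrictAnti b)
    (hs : ∑ j, b j = m + ∑ j : Fin k, (k - 1 - j)) :
    ∃ μ : m.Partition, len μ ≤ k ∧ beta k μ = b := by
  have hlow := strictAnti_low hb
  obtain ⟨μ, h1, h2⟩ := exists_part (m := m) (fun j : Fin k => b j - (k - 1 - j)) (by
    intro i j hij
    have := strictAnti_ge hb i j hij
    have h3 : (i : ℕ) ≤ j := hij
    have := j.2
    have := hlow j
    simp only; omega) (by
    have : ∑ j : Fin k, b j = ∑ j : Fin k, ((b j - (k - 1 - j)) + (k - 1 - j)) :=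
      Finset.sum_congr rfl fun j _ => by have := hlow j; omega
    rw [this, Finset.sum_add_distrib] at hs
    omega)
  refine ⟨μ, h1, ?_⟩
  ext j
  rw [beta_apply, h2 j]
  have := hlow j
  omega

theorem beta_inj {m k : ℕ} {μ ν : m.Partition} (hμ : len μ ≤ k) (hν : len ν ≤ k)
    (h : beta k μ = beta k ν) : μ = ν := by
  refine part_ext hμ hν fun j => ?_
  have := congrArg (fun b : Fin k →₀ ℕ => b j) h
  simp only [beta_apply] at this
  omega

theorem sum_beta {m k : ℕ} (μ : m.Partition) (hμ : len μ ≤ k) :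
    ∑ j, beta k μ j = m + ∑ j : Fin k, (k - 1 - j) := by
  simp only [beta_apply, Finset.sum_add_distrib, sum_row_of_le μ hμ]

end Pool.Agent.P.MP_3827cc_co
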