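import Pool.Agent.P.MP_3827cc_co.Laurent

namespace Pool.Agent.P.MP_3827cc_co

open Finset MvPolynomial

theorem antisym_vand_bigF (k : ℕ) (e : ℤ) {n : ℕ} (l : n.Partition) (σ : Equiv.Perm (Fin k)) :
    rename σ (vand k * bigF k e l) = C (Equiv.Perm.sign σ : ℤ) * (vand k * bigF k e l) := by
  rw [map_mul, rename_vand, rename_bigF, mul_assoc]

/-- The point mass at the origin. -/
def dl {M : Type} [Zero M] [DecidableEq M] (x : M) : ℤ := if x = 0 then 1 else 0

theorem prod_Ioi_two {R : Type*} [CommRing R] (x : Fin 2 → R) :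
    ∏ i, ∏ j ∈ Ioi i, (x i - x j) = x 0 - x 1 := by
  simp [Fin.prod_univ_succ, Fin.prod_Ioi_succ]

theorem prod_Ioi_three {R : Type*} [CommRing R] (x : Fin 3 → R) :
    ∏ i, ∏ j ∈ Ioi i, (x i - x j) = (x 0 - x 1) * (x 0 - x 2) * (x 1 - x 2) := by
  simp [Fin.prod_univ_succ, Fin.prod_Ioi_succ]

theorem prod_Ioi_four {R : Type*} [CommRing R] (x : Fin 4 → R) :
    ∏ i, ∏ j ∈ Ioi i, (x i - x j) = (x 0 - x 1) * (x 0 - x 2) * (x 0 - x 3) * (x 1 - x 2) *
      (x 1 - x 3) * (x 2 - x 3) := by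
  rw [Fin.prod_univ_four, show Ioi (0 : Fin 4) = {1, 2, 3} by decide,
    show Ioi (1 : Fin 4) = {2, 3} by decide, show Ioi (2 : Fin 4) = {3} by decide,
    show Ioi (3 : Fin 4) = ∅ by decide]
  simp
  ring

theorem prod_Ioi_five {R : Type*} [CommRing R] (x : Fin 5 → R) :
    ∏ i, ∏ j ∈ Ioi i, (x i - x j) = (x 0 - x 1) * (x 0 - x 2) * (x 0 - x 3) * (x 0 - x 4) *
      (x 1 - x 2) * (x 1 - x 3) * (x 1 - x 4) * (x 2 - x 3) * (x 2 - x 4) * (x 3 - x 4) := by
  rw [Fin.prod_univ_five, show Ioi (0 : Fin 5) = {1, 2, 3, 4} by decide,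
    show Ioi (1 : Fin 5) = {2, 3, 4} by decide, show Ioi (2 : Fin 5) = {3, 4} by decide,
    show Ioi (3 : Fin 5) = {4} by decide, show Ioi (4 : Fin 5) = ∅ by decide]
  simp
  ring

theorem ev_vand {M : Type} [AddCommGroup M] {k : ℕ} (v : Fin k → M) :
    ev v (vand k) = ∏ i, ∏ j ∈ Ioi i, (mono (v i) - mono (v j)) := by
  simp [ev, vand]

theorem ev_bigF {M : Type} [AddCommGroup M] {k : ℕ} (v : Fin k → M) (e : ℤ) {n : ℕ}
    (l : n.Partition) : ev v (bigF k e l) = ∏ i : Fin (len l),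
      ((∑ j, mono (v j) ^ row l i) ^ 2 + (e : AddMonoidAlgebra ℤ M) *
        ∑ j, (mono (v j) ^ row l i) ^ 2) := by
  unfold bigF
  rw [map_prod]
  refine Finset.prod_congr rfl fun i _ => ?_
  rw [map_add, map_pow, map_mul, ev_psum, ev_psum]
  simp only [← pow_mul, mul_comm (row l i) 2]
  simp

section one

/-- Weights of the defining representation of `SO(3)`, doubled. -/
def vA1 : Fin 3 → ℤ := ![2, -2, 0]
/-- Weights of the defining representation of `Sp(2)`. -/
def vB1 : Fin 2 → ℤ := ![1, -1]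

theorem claimA1 {n : ℕ} (l : n.Partition) :
    psi etaA (ev vA1 (vand 3 * bigF 3 (-1) l)) = 4 * sumA 1 l := by
  rw [psi_ev, sumA_eq 1 l le_rfl, sum_part_eq (m := 2 * n) _
    (fun b hb h => degree_bigF 3 (-1) (by norm_num) l hb h) _
    (fun b => ∀ j : Fin 3, (b j + (3 - 1 - j)) % 2 = 0) (fun μ => mem_evenRows μ)]
  refine sum_weight_eq (antisym_vand_bigF 3 (-1) l) (fun b => etaA (∑ i, b i • vA1 i)) 4
    (fun b => ∀ j : Fin 3, (b j + (3 - 1 - j)) % 2 = 0) ?_
  intro b hb h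
  have hd := degree_bigF 3 (-1) (by norm_num) l hb h
  have h1 : ∀ c : Fin 3 → ℕ, ∑ i, c i • vA1 i = 2 * ((c 0 : ℤ) - c 1) := by
    intro c; simp [Fin.sum_univ_three, vA1]; ring
  unfold altW
  simp only [h1, Function.comp_apply, etaA_eq hb, tab3]
  simp only [Fin.sum_univ_three, Fin.forall_fin_succ, ne_eq, decide_eq_decide] at hd ⊢
  refine if_congr ?_ rfl rfl
  simp at hd ⊢
  omega

theorem claimB1 {n : ℕ} (l : n.Partition) :
    psi etaB (ev vB1 (vand 2 * bigF 2 1 l)) = 2 * sumB 1 l := by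
  rw [psi_ev, sumB_eq 1 l, sum_part_eq (m := 2 * n) _
    (fun b hb h => degree_bigF 2 1 (by norm_num) l hb h) _
    (fun b => b 0 = b 1 + 1) (fun μ => ?_)]
  · refine sum_weight_eq (antisym_vand_bigF 2 1 l) (fun b => etaB (∑ i, b i • vB1 i)) 2
      (fun b => b 0 = b 1 + 1) ?_
    intro b hb h
    have h1 : ∀ c : Fin 2 → ℕ, ∑ i, c i • vB1 i = ((c 0 : ℤ) - c 1) := by
      intro c; simp [Fin.sum_univ_two, vB1]; ring
    unfold altW
    simp only [h1, Function.comp_apply, etaB_eq hb, tab2]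
    refine @if_congr _ _ _ _ (_) _ _ _ _ ?_ rfl rfl
    simp [Fin.exists_fin_succ]
  · change μ ∈ evenCols 2 (2 * n) ↔ _
    rw [mem_evenCols]
    refine and_congr_right fun _ => ?_
    have h01 := row_antitone μ (show 0 ≤ 1 by omega)
    simp only [Finset.card_filter, Fin.sum_univ_two, beta_apply, Nat.even_iff]
    simp only [Fin.val_zero, Fin.val_one]
    constructor
    · intro H
      have := H (row μ 1)
      split_ifs at this <;> omega
    · intro H i
      split_ifs <;> omega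

theorem sum_eq_one {n : ℕ} (l : n.Partition) : sumA 1 l = sumB 1 l := by
  have hA := claimA1 l
  have hB := claimB1 l
  set A : AddMonoidAlgebra ℤ ℤ := mono 1 with hA1
  set A' : AddMonoidAlgebra ℤ ℤ := mono (-1) with hA2
  have hAA : A * A' = 1 := by rw [hA1, hA2, mono_mul]; rfl
  have e1 : mono (2 : ℤ) = A * A := by rw [hA1, mono_mul]; rfl
  have e2 : mono (-2 : ℤ) = A' * A' := by rw [hA2, mono_mul]; rfl
  have hF : ev vA1 (bigF 3 (-1) l) = ev vB1 (bigF 2 1 l) := by
    rw [ev_bigF, ev_bigF]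
    refine Finset.prod_congr rfl fun i _ => ?_
    simp only [Fin.sum_univ_three, Fin.sum_univ_two, vA1, vB1, Matrix.cons_val_zero,
      Matrix.cons_val_one, Matrix.cons_val_two, Matrix.head_cons, Matrix.tail_cons, e1, e2,
      mono_zero, mul_pow, one_pow]
    have h : A ^ row l i * A' ^ row l i = 1 := by rw [← mul_pow, hAA, one_pow]
    rw [← hA1, ← hA2]
    generalize A ^ row l i = x at h ⊢
    generalize A' ^ row l i = y at h ⊢
    push_cast
    linear_combination (2 * x * y) * h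
  have hV : ev vA1 (vand 3) = (mono 2 - mono (-2)) * ((mono (-1) - mono 1) * ev vB1 (vand 2)) := by
    rw [ev_vand, ev_vand, prod_Ioi_three, prod_Ioi_two]
    simp only [vA1, vB1, Matrix.cons_val_zero, Matrix.cons_val_one, Matrix.cons_val_two,
      Matrix.head_cons, Matrix.tail_cons, e1, e2, mono_zero]
    rw [← hA1, ← hA2]
    linear_combination ((A * A - A' * A') * (A * A' - 1)) * hAA
  rw [map_mul, hF, hV, mul_assoc, mul_assoc, psi_diff_mul, ← map_mul] at hA
  have w1 : (fun x => etaA (2 + x) - etaA (-2 + x)) = fun x => 2 * dl x := by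
    funext x; rw [etaA_diff, dl]; split_ifs <;> simp
  rw [w1, psi_const_mul, psi_diff_mul] at hA
  have w2 : (fun x : ℤ => dl (-1 + x) - dl (1 + x)) = etaB := by
    funext x; unfold dl etaB; split_ifs <;> omega
  rw [w2, hB] at hA
  omega

end one

section two

/-- Weights of the defining representation of `SO(5)` in the coordinates of `Sp(4)`. -/
def vA2 : Fin 5 → ℤ × ℤ := ![(1, 1), (-1, -1), (1, -1), (-1, 1), (0, 0)]
/-- Weights of the defining representation of `Sp(4)`. -/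
def vB2 : Fin 4 → ℤ × ℤ := ![(1, 0), (-1, 0), (0, 1), (0, -1)]
/-- The weight for even rows in rank two. -/
def wA2 (x : ℤ × ℤ) : ℤ := etaA (x.1 + x.2) * etaA (x.1 - x.2)
/-- The weight for even columns in rank two. -/
def wB2 (x : ℤ × ℤ) : ℤ := etaB x.1 * etaB x.2

theorem claimA2 {n : ℕ} (l : n.Partition) :
    psi wA2 (ev vA2 (vand 5 * bigF 5 (-1) l)) = 32 * sumA 2 l := by
  rw [psi_ev, sumA_eq 2 l le_rfl, sum_part_eq (m := 2 * n) _
    (fun b hb h => degree_bigF 5 (-1) (by norm_num) l hb h) _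
    (fun b => ∀ j : Fin 5, (b j + (5 - 1 - j)) % 2 = 0) (fun μ => mem_evenRows μ)]
  refine sum_weight_eq (antisym_vand_bigF 5 (-1) l) (fun b => wA2 (∑ i, b i • vA2 i)) 32
    (fun b => ∀ j : Fin 5, (b j + (5 - 1 - j)) % 2 = 0) ?_
  intro b hb h
  have hd := degree_bigF 5 (-1) (by norm_num) l hb h
  have h1 : ∀ c : Fin 5 → ℕ, wA2 (∑ i, c i • vA2 i) =
      etaA (2 * ((c 0 : ℤ) - c 1)) * etaA (2 * ((c 2 : ℤ) - c 3)) := by
    intro c
    simp only [wA2, Fin.sum_univ_five, vA2]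
    congr 2 <;> simp <;> ring
  unfold altW
  simp only [h1, Function.comp_apply, etaA_eq hb, tab5]
  simp only [Fin.sum_univ_five, Fin.forall_fin_succ, ne_eq, decide_eq_decide] at hd ⊢
  refine if_congr ?_ rfl rfl
  simp at hd ⊢
  omega

theorem claimB2 {n : ℕ} (l : n.Partition) :
    psi wB2 (ev vB2 (vand 4 * bigF 4 1 l)) = 8 * sumB 2 l := by
  rw [psi_ev, sumB_eq 2 l, sum_part_eq (m := 2 * n) _
    (fun b hb h => degree_bigF 4 1 (by norm_num) l hb h) _
    (fun b => b 0 = b 1 + 1 ∧ b 2 = b 3 + 1) (fun μ => ?_)]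
  · refine sum_weight_eq (antisym_vand_bigF 4 1 l) (fun b => wB2 (∑ i, b i • vB2 i)) 8
      (fun b => b 0 = b 1 + 1 ∧ b 2 = b 3 + 1) ?_
    intro b hb h
    have h1 : ∀ c : Fin 4 → ℕ, wB2 (∑ i, c i • vB2 i) =
        etaB ((c 0 : ℤ) - c 1) * etaB ((c 2 : ℤ) - c 3) := by
      intro c
      simp only [wB2, Fin.sum_univ_four, vB2]
      congr 2 <;> simp <;> ring
    unfold altW
    simp only [h1, Function.comp_apply, etaB_eq hb, tab4]
    refine @if_congr _ _ _ _ (_) _ _ _ _ ?_ rfl rfl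
    simp [Fin.exists_fin_succ]
  · change μ ∈ evenCols 4 (2 * n) ↔ _
    rw [mem_evenCols]
    refine and_congr_right fun _ => ?_
    have h01 := row_antitone μ (show 0 ≤ 1 by omega)
    have h12 := row_antitone μ (show 1 ≤ 2 by omega)
    have h23 := row_antitone μ (show 2 ≤ 3 by omega)
    simp only [Finset.card_filter, Fin.sum_univ_four, beta_apply, Nat.even_iff]
    simp only [Fin.val_zero, Fin.val_one, Fin.val_two, show ((3 : Fin 4) : ℕ) = 3 from rfl]
    constructor
    · intro H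
      have h1 := H (row μ 1)
      have h3 := H (row μ 3)
      split_ifs at h1 h3 <;> omega
    · intro H i
      split_ifs <;> omega

theorem sum_eq_two {n : ℕ} (l : n.Partition) : sumA 2 l = sumB 2 l := by
  have hA := claimA2 l
  have hB := claimB2 l
  set A : AddMonoidAlgebra ℤ (ℤ × ℤ) := mono (1, 0) with hA1
  set A' : AddMonoidAlgebra ℤ (ℤ × ℤ) := mono (-1, 0) with hA2
  set B : AddMonoidAlgebra ℤ (ℤ × ℤ) := mono (0, 1) with hB1
  set B' : AddMonoidAlgebra ℤ (ℤ × ℤ) := mono (0, -1) with hB2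
  have hAA : A * A' = 1 := by rw [hA1, hA2, mono_mul]; rfl
  have hBB : B * B' = 1 := by rw [hB1, hB2, mono_mul]; rfl
  have e1 : mono ((1, 1) : ℤ × ℤ) = A * B := by rw [hA1, hB1, mono_mul]; rfl
  have e2 : mono ((-1, -1) : ℤ × ℤ) = A' * B' := by rw [hA2, hB2, mono_mul]; rfl
  have e3 : mono ((1, -1) : ℤ × ℤ) = A * B' := by rw [hA1, hB2, mono_mul]; rfl
  have e4 : mono ((-1, 1) : ℤ × ℤ) = A' * B := by rw [hA2, hB1, mono_mul]; rfl
  have e5 : mono ((0, 0) : ℤ × ℤ) = 1 := rfl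
  have hF : ev vA2 (bigF 5 (-1) l) = ev vB2 (bigF 4 1 l) := by
    rw [ev_bigF, ev_bigF]
    refine Finset.prod_congr rfl fun i _ => ?_
    simp only [Fin.sum_univ_five, Fin.sum_univ_four, vA2, vB2, Matrix.cons_val_zero,
      Matrix.cons_val_one, Matrix.cons_val, e1, e2, e3, e4, e5, mul_pow, one_pow]
    have h : A ^ row l i * A' ^ row l i = 1 := by rw [← mul_pow, hAA, one_pow]
    have h' : B ^ row l i * B' ^ row l i = 1 := by rw [← mul_pow, hBB, one_pow]
    rw [← hA1, ← hA2, ← hB1, ← hB2]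
    generalize A ^ row l i = x at h ⊢
    generalize A' ^ row l i = x' at h ⊢
    generalize B ^ row l i = y at h' ⊢
    generalize B' ^ row l i = y' at h' ⊢
    push_cast
    linear_combination (2 * (y * y' + y ^ 2 + y' ^ 2)) * h + (2 * (x * x' + x ^ 2 + x' ^ 2)) * h'
  have hV : ev vA2 (vand 5) = (mono (1, 1) - mono (-1, -1)) * ((mono (1, -1) - mono (-1, 1)) *
      ((mono (-1, 0) - mono (1, 0)) * ((mono (0, -1) - mono (0, 1)) * ev vB2 (vand 4)))) := by
    rw [ev_vand, ev_vand, prod_Ioi_five, prod_Ioi_four]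
    simp only [vA2, vB2, Matrix.cons_val_zero, Matrix.cons_val_one, Matrix.cons_val,
      e1, e2, e3, e4, e5]
    rw [← hA1, ← hA2, ← hB1, ← hB2]
    have f1 : (A * B - A * B') * (A' * B' - A' * B) = (B - B') * (B' - B) := by
      linear_combination ((B - B') * (B' - B)) * hAA
    have f2 : (A * B - A' * B) * (A' * B' - A * B') = (A - A') * (A' - A) := by
      linear_combination ((A - A') * (A' - A)) * hBB
    have f3 : (A * B - 1) * (A' * B' - 1) = (A - B') * (A' - B) := by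
      linear_combination (B * B' - 1) * hAA
    have f4 : (A * B' - 1) * (A' * B - 1) = (A - B) * (A' - B') := by
      linear_combination (B * B' - 1) * hAA
    calc _ = (A * B - A' * B') * (A * B' - A' * B) * ((A * B - A * B') * (A' * B' - A' * B)) *
          ((A * B - A' * B) * (A' * B' - A * B')) * ((A * B - 1) * (A' * B' - 1)) *
          ((A * B' - 1) * (A' * B - 1)) := by ring
      _ = _ := by rw [f1, f2, f3, f4]; ring
  rw [map_mul, hF, hV, mul_assoc, mul_assoc, mul_assoc, mul_assoc, psi_diff_mul, psi_diff_mul,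
    ← map_mul] at hA
  have w1 : (fun x : ℤ × ℤ => (wA2 ((1, 1) + ((1, -1) + x)) - wA2 ((-1, -1) + ((1, -1) + x))) -
      (wA2 ((1, 1) + ((-1, 1) + x)) - wA2 ((-1, -1) + ((-1, 1) + x)))) = fun x => 4 * dl x := by
    funext x
    obtain ⟨u, v⟩ := x
    have h1 := etaA_diff (u + v)
    have h2 := etaA_diff (u - v)
    have h3 : (4 : ℤ) * dl (u, v) =
        (if u + v = 0 then 2 else 0) * (if u - v = 0 then 2 else 0) := by
      simp only [dl, Prod.mk_eq_zero]
      split_ifs <;> omega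
    rw [h3, ← h1, ← h2]
    simp only [wA2, Prod.mk_add_mk]
    ring_nf
  rw [w1, psi_const_mul, psi_diff_mul, psi_diff_mul] at hA
  have w2 : (fun x : ℤ × ℤ => (dl ((-1, 0) + ((0, -1) + x)) - dl ((1, 0) + ((0, -1) + x))) -
      (dl ((-1, 0) + ((0, 1) + x)) - dl ((1, 0) + ((0, 1) + x)))) = wB2 := by
    funext x
    obtain ⟨u, v⟩ := x
    simp only [dl, wB2, etaB, Prod.mk_add_mk, Prod.mk_eq_zero]
    split_ifs <;> omega
  rw [w2, hB] at hA
  omega

end two

end Pool.Agent.P.MP_3827cc_co
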