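import Pool.Agent.P.MP_3827cc_co.Dual

namespace Pool.Agent.P.MP_3827cc_co

open Finset MvPolynomial

/-- The product `∏ (p_a ^ 2 + e p_(2 a))` over the parts `a` of `l`. -/
noncomputable def bigF (k : ℕ) (e : ℤ) {n : ℕ} (l : n.Partition) : MvPolynomial (Fin k) ℤ :=
  ∏ i : Fin (len l), (psum (Fin k) ℤ (row l i) ^ 2 + C e * psum (Fin k) ℤ (2 * row l i))

theorem prod_map_sum {ι α β : Type*} [CommMonoid β] (s : Finset ι) (f : ι → Multiset α)
    (g : α → β) : ((∑ i ∈ s, f i).map g).prod = ∏ i ∈ s, ((f i).map g).prod := by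
  classical
  induction s using Finset.induction_on with
  | empty => simp
  | insert a s ha ih => rw [Finset.sum_insert ha, Finset.prod_insert ha, Multiset.map_add,
      Multiset.prod_add, ih]

theorem bigF_eq (k : ℕ) (e : ℤ) (he : e * e = 1) {n : ℕ} (l : n.Partition) :
    bigF k e l = ∑ S : Finset (Fin (len l)),
      C (e ^ len (tilde l S)) * psumPart (Fin k) ℤ (tilde l S) := by
  unfold bigF
  simp only [add_comm (psum (Fin k) ℤ _ ^ 2)]
  rw [Finset.prod_add, Finset.powerset_univ]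
  refine Finset.sum_congr rfl fun S _ => ?_
  have h1 : len (tilde l S) = ∑ i : Fin (len l), if i ∈ S then 1 else 2 := by
    change Multiset.card (∑ i : Fin (len l),
      if i ∈ S then ({2 * row l i} : Multiset ℕ) else {row l i, row l i}) = _
    rw [Multiset.card_sum]
    refine Finset.sum_congr rfl fun i _ => ?_
    by_cases h : i ∈ S <;> simp [h]
  have h2 : psumPart (Fin k) ℤ (tilde l S) = ∏ i : Fin (len l),
      if i ∈ S then psum (Fin k) ℤ (2 * row l i) else psum (Fin k) ℤ (row l i) ^ 2 := by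
    unfold psumPart tilde
    simp only
    rw [prod_map_sum]
    refine Finset.prod_congr rfl fun i _ => ?_
    by_cases h : i ∈ S <;> simp [h, sq]
  rw [h1, h2, ← Finset.prod_pow_eq_pow_sum, map_prod, ← Finset.prod_mul_distrib,
    ← Finset.prod_sdiff (Finset.subset_univ S), mul_comm]
  congr 1
  · refine Finset.prod_congr rfl fun i hi => ?_
    have := (Finset.mem_sdiff.1 hi).2
    rw [if_neg this, if_neg this, sq e, he]; simp
  · refine Finset.prod_congr rfl fun i hi => ?_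
    rw [if_pos hi, if_pos hi, pow_one]

theorem sum_chi_eq {n : ℕ} (l : n.Partition) (e : ℤ) (he : e * e = 1) (μ : (2 * n).Partition)
    {k : ℕ} (hk : len μ ≤ k) :
    ∑ S : Finset (Fin (len l)), e ^ len (tilde l S) * chi μ (tilde l S) =
      coeff (beta k μ) (vand k * bigF k e l) := by
  rw [bigF_eq k e he, Finset.mul_sum, coeff_sum]
  refine Finset.sum_congr rfl fun S _ => ?_
  rw [mul_left_comm, coeff_C_mul, chi_eq_coeff μ _ hk]

theorem sumA_eq (N : ℕ) {n : ℕ} (l : n.Partition) {k : ℕ} (hk : 2 * N + 1 ≤ k) :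
    sumA N l = ∑ μ ∈ evenRows (2 * N + 1) (2 * n),
      coeff (beta k μ) (vand k * bigF k (-1) l) := by
  unfold sumA
  simp only [Finset.mul_sum]
  rw [Finset.sum_comm]
  refine Finset.sum_congr rfl fun μ hμ => ?_
  exact sum_chi_eq l (-1) (by norm_num) μ ((Finset.mem_filter.1 hμ).2.1.trans hk)

theorem sumB_eq (N : ℕ) {n : ℕ} (l : n.Partition) :
    sumB N l = ∑ μ ∈ evenCols (2 * N) (2 * n),
      coeff (beta (2 * N) μ) (vand (2 * N) * bigF (2 * N) 1 l) := by
  unfold sumB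
  rw [Finset.sum_comm]
  refine Finset.sum_congr rfl fun μ hμ => ?_
  have hk : len μ ≤ 2 * N := by
    unfold evenCols at hμ
    simp only [Finset.mem_filter] at hμ
    exact hμ.2.1
  simpa using sum_chi_eq l 1 (by norm_num) μ hk

theorem sum_image_eq {k : ℕ} {b : Fin k → ℕ} (hb : Function.Injective b) :
    ∑ x ∈ image b univ, x = ∑ j, b j := Finset.sum_image (fun _ _ _ _ h => hb h)

theorem degree_list (k : ℕ) (l : List ℕ) (hl : ∀ c ∈ l, 0 < c) {b : Fin k →₀ ℕ}
    (hb : StrictAnti b) (h : coeff b (vand k * (l.map (psum (Fin k) ℤ)).prod) ≠ 0) :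
    ∑ j, b j = l.sum + ∑ j : Fin k, (k - 1 - j) := by
  rw [coeff_vand_list k l hl hb] at h
  have := mn_sum _ _ _ h
  rw [sum_image_eq hb.injective, ← image_delta, sum_image_eq (delta_strictAnti k).injective] at this
  omega

theorem degree_bigF (k : ℕ) (e : ℤ) (he : e * e = 1) {n : ℕ} (l : n.Partition) {b : Fin k →₀ ℕ}
    (hb : StrictAnti b) (h : coeff b (vand k * bigF k e l) ≠ 0) :
    ∑ j, b j = 2 * n + ∑ j : Fin k, (k - 1 - j) := by
  rw [bigF_eq k e he, Finset.mul_sum, coeff_sum] at h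
  obtain ⟨S, -, hS⟩ := Finset.exists_ne_zero_of_sum_ne_zero h
  rw [mul_left_comm, coeff_C_mul, psumPart_eq] at hS
  rw [degree_list k _ (toList_pos _) hb (right_ne_zero_of_mul hS), Multiset.sum_toList,
    (tilde l S).parts_sum]

open Classical in
theorem sum_part_eq {m k : ℕ} (G : MvPolynomial (Fin k) ℤ)
    (hG : ∀ b : Fin k →₀ ℕ, StrictAnti b → coeff b G ≠ 0 →
      ∑ j, b j = m + ∑ j : Fin k, (k - 1 - j))
    (s : Finset m.Partition) (Q : (Fin k → ℕ) → Prop)
    (hs : ∀ μ, μ ∈ s ↔ len μ ≤ k ∧ Q (beta k μ)) :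
    ∑ μ ∈ s, coeff (beta k μ) G = ∑ b ∈ G.support.filter (fun b : Fin k →₀ ℕ => StrictAnti b ∧ Q b), coeff b G := by
  refine Finset.sum_bij_ne_zero (fun μ _ _ => beta k μ) ?_ ?_ ?_ ?_
  · intro μ h1 h2
    exact Finset.mem_filter.2 ⟨mem_support_iff.2 h2, beta_strictAnti k μ, ((hs μ).1 h1).2⟩
  · intro μ h1 _ ν h2 _ h
    exact beta_inj ((hs μ).1 h1).1 ((hs ν).1 h2).1 h
  · intro b hb h
    obtain ⟨-, h1, h2⟩ := Finset.mem_filter.1 hb
    obtain ⟨μ, h3, rfl⟩ := exists_beta b h1 (hG b h1 h)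
    exact ⟨μ, (hs μ).2 ⟨h3, h2⟩, h, rfl⟩
  · intro μ _ _; rfl

theorem rename_vand (k : ℕ) (σ : Equiv.Perm (Fin k)) :
    rename σ (vand k) = C (Equiv.Perm.sign σ : ℤ) * vand k := by
  unfold vand
  simp only [map_prod, map_sub, rename_X]
  rw [σ.prod_Ioi_comp_eq_sign_mul_prod (f := fun i j => (X i - X j : MvPolynomial (Fin k) ℤ))
    (fun i j => by ring)]
  simp

theorem rename_bigF (k : ℕ) (e : ℤ) {n : ℕ} (l : n.Partition) (σ : Equiv.Perm (Fin k)) :
    rename σ (bigF k e l) = bigF k e l := by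
  unfold bigF
  simp only [map_prod, map_add, map_pow, map_mul, rename_psum, rename_C]

/-- Permuting an exponent vector. -/
noncomputable def act {k : ℕ} (σ : Equiv.Perm (Fin k)) (b : Fin k →₀ ℕ) : Fin k →₀ ℕ :=
  Finsupp.equivMapDomain σ.symm b

@[simp] theorem coe_act {k : ℕ} (σ : Equiv.Perm (Fin k)) (b : Fin k →₀ ℕ) :
    ⇑(act σ b) = b ∘ σ := by
  funext i; simp [act]

theorem coeff_act {k : ℕ} {G : MvPolynomial (Fin k) ℤ}
    (hG : ∀ σ : Equiv.Perm (Fin k), rename σ G = C (Equiv.Perm.sign σ : ℤ) * G)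
    (σ : Equiv.Perm (Fin k)) (b : Fin k →₀ ℕ) :
    coeff (act σ b) G = (Equiv.Perm.sign σ : ℤ) * coeff b G := by
  have h1 := coeff_rename_mapDomain σ σ.injective G (act σ b)
  have h2 : Finsupp.mapDomain σ (act σ b) = b := by
    rw [← Finsupp.equivMapDomain_eq_mapDomain]
    ext i; simp
  rw [h2, hG, coeff_C_mul] at h1
  exact h1.symm

/-- The antisymmetrisation of a weight on exponent vectors. -/
def altW {k : ℕ} (φ : (Fin k → ℕ) → ℤ) (b : Fin k → ℕ) : ℤ :=
  ∑ σ : Equiv.Perm (Fin k), (Equiv.Perm.sign σ : ℤ) * φ (b ∘ σ)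

theorem altW_comp {k : ℕ} (φ : (Fin k → ℕ) → ℤ) (b : Fin k → ℕ) (τ : Equiv.Perm (Fin k)) :
    altW φ (b ∘ τ) = (Equiv.Perm.sign τ : ℤ) * altW φ b := by
  unfold altW
  rw [Finset.mul_sum, ← Equiv.sum_comp (Equiv.mulLeft τ)
    (fun σ => (Equiv.Perm.sign τ : ℤ) * ((Equiv.Perm.sign σ : ℤ) * φ (b ∘ σ)))]
  refine Finset.sum_congr rfl fun σ _ => ?_
  simp only [Equiv.coe_mulLeft, Equiv.Perm.sign_mul, Units.val_mul, Equiv.Perm.coe_mul]
  rw [← mul_assoc, ← mul_assoc, ← Units.val_mul, Int.units_mul_self]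
  simp [Function.comp_assoc]

theorem factorial_mul_sum {k : ℕ} {G : MvPolynomial (Fin k) ℤ}
    (hG : ∀ σ : Equiv.Perm (Fin k), rename σ G = C (Equiv.Perm.sign σ : ℤ) * G)
    (φ : (Fin k → ℕ) → ℤ) :
    (k.factorial : ℤ) * ∑ b ∈ G.support, coeff b G * φ b =
      ∑ b ∈ G.support, coeff b G * altW φ b := by
  have h1 : ∀ σ : Equiv.Perm (Fin k), ∑ b ∈ G.support, coeff b G * φ b =
      ∑ b ∈ G.support, coeff b G * ((Equiv.Perm.sign σ : ℤ) * φ (b ∘ σ)) := by
    intro σ
    symm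
    refine Finset.sum_bij' (fun b _ => act σ b) (fun b _ => act σ⁻¹ b) ?_ ?_ ?_ ?_ ?_
    · intro b hb
      rw [mem_support_iff] at hb ⊢
      rw [coeff_act hG]
      exact mul_ne_zero (Units.ne_zero _) hb
    · intro b hb
      rw [mem_support_iff] at hb ⊢
      rw [coeff_act hG]
      exact mul_ne_zero (Units.ne_zero _) hb
    · intro b _; ext i; simp
    · intro b _; ext i; simp
    · intro b _
      rw [coeff_act hG, coe_act]; ring
  unfold altW
  simp only [Finset.mul_sum]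
  rw [Finset.sum_comm, ← Finset.mul_sum, Finset.sum_congr rfl (fun σ _ => (h1 σ).symm)]
  simp [Fintype.card_perm]

open Classical in
theorem sum_weight_eq {k : ℕ} {G : MvPolynomial (Fin k) ℤ}
    (hG : ∀ σ : Equiv.Perm (Fin k), rename σ G = C (Equiv.Perm.sign σ : ℤ) * G)
    (φ : (Fin k → ℕ) → ℤ) (c : ℤ) (Q : (Fin k → ℕ) → Prop)
    (H : ∀ b : Fin k →₀ ℕ, StrictAnti b → coeff b G ≠ 0 → altW φ b = if Q b then c else 0) :
    ∑ b ∈ G.support, coeff b G * φ b =
      c * ∑ b ∈ G.support.filter (fun b : Fin k →₀ ℕ => StrictAnti b ∧ Q b), coeff b G := by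
  let ψ : (Fin k → ℕ) → ℤ := fun b => if StrictAnti b ∧ Q b then c else 0
  have h1 : c * ∑ b ∈ G.support.filter (fun b : Fin k →₀ ℕ => StrictAnti b ∧ Q b), coeff b G =
      ∑ b ∈ G.support, coeff b G * ψ b := by
    rw [Finset.sum_filter, Finset.mul_sum]
    refine Finset.sum_congr rfl fun b _ => ?_
    simp only [ψ]
    split_ifs <;> ring
  rw [h1]
  apply mul_left_cancel₀ (a := (k.factorial : ℤ)) (by exact_mod_cast k.factorial_ne_zero)
  rw [factorial_mul_sum hG, factorial_mul_sum hG]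
  refine Finset.sum_congr rfl fun b hb => ?_
  rw [mem_support_iff] at hb
  congr 1
  have hinj : Function.Injective b := by
    intro i j hij
    by_contra hne
    have h2 := coeff_act hG (Equiv.swap i j) b
    have h3 : act (Equiv.swap i j) b = b := by
      ext x
      simp only [coe_act, Function.comp_apply]
      exact Equiv.apply_swap_eq_self hij x
    rw [h3, Equiv.Perm.sign_swap hne] at h2
    simp only [Units.val_neg, Units.val_one] at h2
    omega
  obtain ⟨τ, hτ⟩ := exists_sort hinj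
  have h4 := H (act τ b) (by rwa [coe_act]) (by
    rw [coeff_act hG]; exact mul_ne_zero (Units.ne_zero _) hb)
  rw [coe_act] at h4
  have h5 : altW ψ (b ∘ τ) = if Q (b ∘ τ) then c else 0 := by
    unfold altW
    rw [Finset.sum_eq_single 1]
    · simp [ψ, hτ]
    · intro σ _ hσ
      simp only [ψ]
      rw [if_neg, mul_zero]
      rintro ⟨h6, -⟩
      apply hσ
      have h7 := (h6.range_inj hτ).1 (σ.surjective.range_comp _)
      ext i
      exact congrArg Fin.val (hτ.injective (congrFun h7 i))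
    · simp
  rw [← h5, altW_comp, altW_comp] at h4
  exact mul_left_cancel₀ (Units.ne_zero _) h4

end Pool.Agent.P.MP_3827cc_co
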