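import Pool.Agent.P.MP_3827cc_co.Beads

namespace Pool.Agent.P.MP_3827cc_co

open Finset MvPolynomial

theorem bigF_parts (k : ℕ) (e : ℤ) {n : ℕ} (l : n.Partition) : bigF k e l =
    (l.parts.map fun a => psum (Fin k) ℤ a ^ 2 + C e * psum (Fin k) ℤ (2 * a)).prod := by
  unfold bigF
  rw [← map_row l, Multiset.map_map, Finset.prod_eq_multiset_prod]
  rfl

theorem succ_vand (k : ℕ) : finSuccEquiv ℤ k (vand (k + 1)) =
    (∏ j : Fin k, (Polynomial.X - Polynomial.C (X j))) * Polynomial.C (vand k) := by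
  unfold vand
  rw [Fin.prod_univ_succ, Fin.prod_Ioi_zero]
  simp only [Fin.prod_Ioi_succ, map_mul, map_prod, map_sub, finSuccEquiv_X_zero,
    finSuccEquiv_X_succ]

theorem succ_psum (k c : ℕ) : finSuccEquiv ℤ k (psum (Fin (k + 1)) ℤ c) =
    Polynomial.X ^ c + Polynomial.C (psum (Fin k) ℤ c) := by
  unfold psum
  rw [Fin.sum_univ_succ]
  simp only [map_add, map_sum, map_pow, finSuccEquiv_X_zero, finSuccEquiv_X_succ]

theorem succ_factor (k c : ℕ) (hc : 0 < c) :
    (finSuccEquiv ℤ k (psum (Fin (k + 1)) ℤ c ^ 2 + C (-1) * psum (Fin (k + 1)) ℤ (2 * c))).natDegree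
      ≤ c ∧
    (finSuccEquiv ℤ k (psum (Fin (k + 1)) ℤ c ^ 2 + C (-1) * psum (Fin (k + 1)) ℤ (2 * c))).coeff c
      = 2 * psum (Fin k) ℤ c := by
  have h : finSuccEquiv ℤ k (psum (Fin (k + 1)) ℤ c ^ 2 + C (-1) * psum (Fin (k + 1)) ℤ (2 * c)) =
      Polynomial.C (2 * psum (Fin k) ℤ c) * Polynomial.X ^ c +
        Polynomial.C (psum (Fin k) ℤ c ^ 2 - psum (Fin k) ℤ (2 * c)) := by
    have e : (C (-1) : MvPolynomial (Fin (k + 1)) ℤ) = -1 := by simp
    rw [e, map_add, map_pow, map_mul, succ_psum, succ_psum, map_neg, map_one, mul_comm 2 c, pow_mul]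
    simp only [map_mul, map_sub, map_pow, map_ofNat]
    ring
  rw [h]
  constructor
  · refine (Polynomial.natDegree_add_le _ _).trans (max_le ?_ (by simp))
    exact Polynomial.natDegree_C_mul_X_pow_le _ _
  · rw [Polynomial.coeff_add, Polynomial.coeff_C_mul_X_pow, if_pos rfl, Polynomial.coeff_C,
      if_neg hc.ne', add_zero]

theorem succ_bigF (k : ℕ) (s : Multiset ℕ) (hs : ∀ a ∈ s, 0 < a) :
    (finSuccEquiv ℤ k (s.map fun a => psum (Fin (k + 1)) ℤ a ^ 2 +
      C (-1) * psum (Fin (k + 1)) ℤ (2 * a)).prod).natDegree ≤ s.sum ∧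
    (finSuccEquiv ℤ k (s.map fun a => psum (Fin (k + 1)) ℤ a ^ 2 +
      C (-1) * psum (Fin (k + 1)) ℤ (2 * a)).prod).coeff s.sum =
      2 ^ Multiset.card s * (s.map (psum (Fin k) ℤ)).prod := by
  induction s using Multiset.induction_on with
  | empty => simp
  | cons a s ih =>
    obtain ⟨h1, h2⟩ := ih (fun x hx => hs x (Multiset.mem_cons_of_mem hx))
    obtain ⟨h3, h4⟩ := succ_factor k a (hs a (Multiset.mem_cons_self _ _))
    simp only [Multiset.map_cons, Multiset.prod_cons, Multiset.sum_cons, Multiset.card_cons]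
    rw [map_mul]
    refine ⟨Polynomial.natDegree_mul_le_of_le h3 h1, ?_⟩
    rw [Polynomial.coeff_mul_add_eq_of_natDegree_le h3 h1, h2, h4]
    ring

theorem succ_top (k : ℕ) {n : ℕ} (l : n.Partition) :
    (finSuccEquiv ℤ k (vand (k + 1) * bigF (k + 1) (-1) l)).natDegree ≤ k + n ∧
    (finSuccEquiv ℤ k (vand (k + 1) * bigF (k + 1) (-1) l)).coeff (k + n) =
      2 ^ len l * (vand k * psumPart (Fin k) ℤ l) := by
  obtain ⟨h1, h2⟩ := succ_bigF k l.parts (fun _ h => l.parts_pos h)
  rw [l.parts_sum, ← bigF_parts] at h1 h2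
  have h3 : (∏ j : Fin k, (Polynomial.X - Polynomial.C (X j : MvPolynomial (Fin k) ℤ))).natDegree
      = k := by simp
  have h4 : (finSuccEquiv ℤ k (vand (k + 1))).natDegree ≤ k := by
    rw [succ_vand]
    exact (Polynomial.natDegree_mul_C_le _ _).trans h3.le
  have h5 : (finSuccEquiv ℤ k (vand (k + 1))).coeff k = vand k := by
    rw [succ_vand, Polynomial.coeff_mul_C]
    have := (Polynomial.monic_prod_X_sub_C (fun j : Fin k => (X j : MvPolynomial (Fin k) ℤ))
      univ).coeff_natDegree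
    rw [h3] at this
    rw [this, one_mul]
  rw [map_mul]
  refine ⟨Polynomial.natDegree_mul_le_of_le h4 h1, ?_⟩
  rw [Polynomial.coeff_mul_add_eq_of_natDegree_le h4 h1, h2, h5]
  unfold psumPart len
  ring

theorem coeff_top_gt (k : ℕ) {n : ℕ} (l : n.Partition) (b : Fin (k + 1) →₀ ℕ)
    (hb : k + n < b 0) : coeff b (vand (k + 1) * bigF (k + 1) (-1) l) = 0 := by
  rw [← Finsupp.cons_tail b, ← finSuccEquiv_coeff_coeff,
    Polynomial.coeff_eq_zero_of_natDegree_lt (lt_of_le_of_lt (succ_top k l).1 hb), coeff_zero]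

theorem coeff_top_eq (k : ℕ) {n : ℕ} (l : n.Partition) (b : Fin k →₀ ℕ) :
    coeff (b.cons (k + n)) (vand (k + 1) * bigF (k + 1) (-1) l) =
      2 ^ len l * coeff b (vand k * psumPart (Fin k) ℤ l) := by
  rw [← finSuccEquiv_coeff_coeff, (succ_top k l).2]
  have : (2 : MvPolynomial (Fin k) ℤ) ^ len l = C (2 ^ len l) := by simp
  rw [this, coeff_C_mul]

theorem row_zero_le {m : ℕ} (μ : m.Partition) : row μ 0 ≤ m := by
  have h := sum_row_of_le μ (k := len μ + 1) (Nat.le_succ _)
  rw [Fin.sum_univ_succ] at h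
  simp only [Fin.val_zero] at h
  omega

open Classical in
/-- The partitions with even rows and first row at least `n` contribute the sum of the
characters of degree `n` indexed by partitions with even rows. -/
theorem sum_long_rows (N : ℕ) (l : (2 * N + 1 + 1).Partition) :
    ∑ μ ∈ (evenRows (2 * N + 1 + 1) (2 * (2 * N + 1 + 1))).filter
      (fun μ => ¬ beads (2 * N + 1 + 1) μ ⊆ range (2 * N + (2 * N + 1 + 1))),
      coeff (beta (2 * N + 1 + 1) μ) (vand (2 * N + 1 + 1) * bigF (2 * N + 1 + 1) (-1) l) =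
    2 ^ len l * ∑ ν ∈ evenRows (2 * N + 1) (2 * N + 1 + 1), chi ν l := by
  rw [Finset.mul_sum]
  symm
  have hmem : ∀ ν ∈ evenRows (2 * N + 1) (2 * N + 1 + 1),
      ∃ μ : (2 * (2 * N + 1 + 1)).Partition, len μ ≤ 2 * N + 1 + 1 ∧
        beta (2 * N + 1 + 1) μ = (beta (2 * N + 1) ν).cons (2 * N + 1 + (2 * N + 1 + 1)) := by
    intro ν hν
    have hl := ((mem_evenRows ν).1 hν).1
    apply exists_beta
    · rw [Fin.strictAnti_iff_succ_lt]
      intro i
      rw [Finsupp.cons_succ]
      refine Fin.cases ?_ (fun i => ?_) i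
      · have := row_zero_le ν
        simp only [Fin.castSucc_zero, Finsupp.cons_zero, beta_apply, Fin.val_zero]
        omega
      · rw [← Fin.succ_castSucc, Finsupp.cons_succ]
        exact beta_strictAnti _ ν (Fin.castSucc_lt_succ)
    · rw [Fin.sum_univ_succ, Fin.sum_univ_succ (fun j : Fin (2 * N + 1 + 1) => 2 * N + 1 + 1 - 1 - j)]
      simp only [Finsupp.cons_zero, Finsupp.cons_succ, sum_beta ν hl, Fin.val_zero, Fin.val_succ]
      rw [Finset.sum_congr rfl (fun (j : Fin (2 * N + 1)) _ =>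
        show 2 * N + 1 + 1 - 1 - (j + 1) = 2 * N + 1 - 1 - j by omega)]
      omega
  choose F hF1 hF2 using hmem
  refine Finset.sum_bij_ne_zero (fun ν h _ => F ν h) ?_ ?_ ?_ ?_
  · intro ν h _
    refine Finset.mem_filter.2 ⟨(mem_evenRows _).2 ⟨hF1 ν h, fun j => ?_⟩, fun hs => ?_⟩
    · rw [hF2]
      refine Fin.cases ?_ (fun i => ?_) j
      · simp only [Finsupp.cons_zero, Fin.val_zero]; omega
      · have := ((mem_evenRows ν).1 h).2 i
        have := i.2
        simp only [Finsupp.cons_succ, Fin.val_succ]; omega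
    · have := hs (Finset.mem_image_of_mem _ (Finset.mem_univ 0))
      rw [hF2, Finsupp.cons_zero, Finset.mem_range] at this
      omega
  · intro ν h _ ν' h' _ e
    have := hF2 ν h
    rw [e, hF2 ν' h'] at this
    apply beta_inj ((mem_evenRows ν).1 h).1 ((mem_evenRows ν').1 h').1
    exact (Finsupp.cons_right_injective _ this).symm
  · intro μ hμ h0
    obtain ⟨h1, h2⟩ := Finset.mem_filter.1 hμ
    obtain ⟨h3, h4⟩ := (mem_evenRows μ).1 h1
    have h5 : beta (2 * N + 1 + 1) μ 0 = 2 * N + 1 + (2 * N + 1 + 1) := by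
      have h6 : ¬ (2 * N + 1 + (2 * N + 1 + 1) < beta (2 * N + 1 + 1) μ 0) :=
        fun h => h0 (coeff_top_gt _ l _ h)
      have h7 : ¬ (row μ 0 + (2 * N + 1 + 1) ≤ 2 * N + (2 * N + 1 + 1)) :=
        fun h => h2 (beads_subset μ h)
      have h8 := h4 0
      simp only [beta_apply, Fin.val_zero] at h6 h8 ⊢
      omega
    have h9 : beta (2 * N + 1 + 1) μ =
        (beta (2 * N + 1 + 1) μ).tail.cons (2 * N + 1 + (2 * N + 1 + 1)) := by
      rw [← h5, Finsupp.cons_tail]
    have hsa : StrictAnti (beta (2 * N + 1 + 1) μ).tail := fun i j hij => by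
      simp only [Finsupp.tail_apply]
      exact beta_strictAnti _ μ (Fin.succ_lt_succ_iff.2 hij)
    rw [h9, coeff_top_eq] at h0
    have h10 := right_ne_zero_of_mul h0
    rw [psumPart_eq] at h10
    have h11 := degree_list _ _ (toList_pos l) hsa h10
    rw [Multiset.sum_toList, l.parts_sum] at h11
    obtain ⟨ν, h12, h13⟩ := exists_beta _ hsa h11
    have hν : ν ∈ evenRows (2 * N + 1) (2 * N + 1 + 1) := by
      refine (mem_evenRows ν).2 ⟨h12, fun j => ?_⟩
      have := h4 j.succ
      have := j.2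
      rw [h13, Finsupp.tail_apply]
      simp only [Fin.val_succ] at *
      omega
    refine ⟨ν, hν, by rwa [chi_eq_coeff ν l h12, h13], ?_⟩
    apply beta_inj (hF1 ν hν) h3
    rw [hF2, h13, ← h9]
  · intro ν h _
    rw [hF2, coeff_top_eq, chi_eq_coeff ν l ((mem_evenRows ν).1 h).1]

/-- The exponent vector of the partition `(n, n)` in two variables. -/
noncomputable def twoRow (n : ℕ) : Fin 2 →₀ ℕ := Finsupp.equivFunOnFinite.symm ![n + 1, n]

/-- The difference of the two sums in the first degree where they can differ. -/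
theorem sumA_sub_sumB (N : ℕ) (l : (2 * N + 1 + 1).Partition) :
    sumA N l - sumB N l = 2 ^ len l * ∑ ν ∈ evenRows (2 * N + 1) (2 * N + 1 + 1), chi ν l -
      coeff (twoRow (2 * N + 1 + 1)) (vand 2 * bigF 2 1 l) := by
  classical
  rw [← sum_long_rows, sumB_eq_rows, sumA_eq N l (Nat.le_succ _)]
  have h1 := Finset.sum_filter_add_sum_filter_not (evenRows (2 * N + 1 + 1) (2 * (2 * N + 1 + 1)))
    (fun μ => beads (2 * N + 1 + 1) μ ⊆ range (2 * N + (2 * N + 1 + 1)))
    (fun μ => coeff (beta (2 * N + 1 + 1) μ) (vand (2 * N + 1 + 1) * bigF (2 * N + 1 + 1) (-1) l))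
  obtain ⟨μ0, h2, h3⟩ := exists_part (m := 2 * (2 * N + 1 + 1)) (fun _ : Fin (2 * N + 1 + 1) => 2)
    antitone_const (by simp; ring)
  have h4 : μ0 ∉ evenRows (2 * N + 1) (2 * (2 * N + 1 + 1)) := by
    intro h
    have h5 := (len_le_iff _ _).1 ((mem_evenRows μ0).1 h).1
    have := h3 (Fin.last _)
    simp only [Fin.val_last] at this
    omega
  have h6 : evenRows (2 * N + 1 + 1) (2 * (2 * N + 1 + 1)) =
      insert μ0 (evenRows (2 * N + 1) (2 * (2 * N + 1 + 1))) := by
    ext μ
    rw [Finset.mem_insert]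
    constructor
    · intro h
      obtain ⟨h7, h8⟩ := (mem_evenRows' μ).1 h
      by_cases h9 : len μ ≤ 2 * N + 1
      · exact Or.inr ((mem_evenRows' μ).2 ⟨h9, fun j => h8 j.castSucc⟩)
      · left
        refine part_ext h7 h2 fun j => ?_
        rw [h3]
        have h10 : ∀ i ∈ (univ : Finset (Fin (2 * N + 1 + 1))), 2 ≤ row μ i := fun i _ => by
          have := row_pos μ (show (i : ℕ) < len μ by have := i.2; omega)
          have := Nat.even_iff.1 (h8 i)
          omega
        exact ((Finset.sum_eq_sum_iff_of_le h10).1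
          (by rw [sum_row_of_le μ h7]; simp; ring) j (Finset.mem_univ j)).symm
    · rintro (rfl | h)
      · exact (mem_evenRows' μ).2 ⟨h2, fun j => by rw [h3]; exact even_two⟩
      · unfold evenRows at h ⊢
        simp only [Finset.mem_filter, Finset.mem_univ, true_and] at h ⊢
        exact ⟨h.1.trans (Nat.le_succ _), h.2⟩
  have h11 : coeff (beta (2 * N + 1 + 1) μ0) (vand (2 * N + 1 + 1) * bigF (2 * N + 1 + 1) (-1) l) =
      coeff (twoRow (2 * N + 1 + 1)) (vand 2 * bigF 2 1 l) := by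
    have hs : StrictAnti (twoRow (2 * N + 1 + 1)) := by
      rw [Fin.strictAnti_iff_succ_lt]
      intro i
      fin_cases i
      simp [twoRow]
    have hi : image (twoRow (2 * N + 1 + 1)) univ = {2 * N + 1 + 1 + 1, 2 * N + 1 + 1} := by
      ext x
      simp [twoRow, Fin.exists_fin_succ, eq_comm]
    rw [coeff_eq_cs _ _ (by norm_num) l (beta_strictAnti _ _), coeff_eq_cs _ _ (by norm_num) l hs,
      hi, cs_dual 2 (2 * N + 1 + 1) l (by
        intro x hx
        simp only [Finset.mem_insert, Finset.mem_singleton, Finset.mem_range] at hx ⊢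
        omega)]
    congr 1
    ext x
    simp only [Finset.mem_image, Finset.mem_univ, true_and, beta_apply, h3, mem_dual,
      Finset.mem_insert, Finset.mem_singleton]
    constructor
    · rintro ⟨j, rfl⟩
      have := j.2
      omega
    · intro h
      exact ⟨⟨2 * N + 3 - x, by omega⟩, by simp only; omega⟩
  rw [h6, Finset.sum_insert h4, h11, ← h6] at h1
  linarith

end Pool.Agent.P.MP_3827cc_co
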